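import Pool.Agent.Lib.H7HB.D

/-! # H7HB, chunk L3: `pol` of forms supported on a block -/

set_option autoImplicit false

namespace H7HB

open Finset Equiv Pool.Agent.H69Hopf

private theorem l3_diag {N : ℕ} {f : Fin N → Fin N → ℝ} (hf : ∀ i j, f i j = - f j i) (i : Fin N) : f i i = 0 := by
  linarith [hf i i]

private theorem l3_out {N : ℕ} {f g : Fin N → Fin N → ℝ} {S : Finset (Fin N)}
    (hfS : ∀ i j, f i j ≠ 0 → i ∈ S ∧ j ∈ S) (hgS : ∀ i j, g i j ≠ 0 → i ∈ S ∧ j ∈ S) (a b c d : Fin N)
    (h : ¬ (a ∈ S ∧ b ∈ S ∧ c ∈ S ∧ d ∈ S)) : pol f g a b c d = 0 := by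
  have f1 : ∀ i j, i ∉ S → f i j = 0 := fun i j hi => by
    by_contra hc
    exact hi (hfS i j hc).1
  have f2 : ∀ i j, j ∉ S → f i j = 0 := fun i j hi => by
    by_contra hc
    exact hi (hfS i j hc).2
  have g1 : ∀ i j, i ∉ S → g i j = 0 := fun i j hi => by
    by_contra hc
    exact hi (hgS i j hc).1
  have g2 : ∀ i j, j ∉ S → g i j = 0 := fun i j hi => by
    by_contra hc
    exact hi (hgS i j hc).2
  unfold pol
  by_cases ha : a ∈ S
  · by_cases hb : b ∈ S
    · by_cases hc : c ∈ S
      · have hd : d ∉ S := fun hd => h ⟨ha, hb, hc, hd⟩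
        rw [g2 c d hd, g2 b d hd, f2 a d hd, f2 c d hd, f2 b d hd, g2 a d hd]
        ring
      · rw [g1 c d hc, f2 a c hc, g2 b c hc, f1 c d hc, g2 a c hc, f2 b c hc]
        ring
    · rw [f2 a b hb, g1 b d hb, g1 b c hb, g2 a b hb, f1 b d hb, f1 b c hb]
      ring
  · rw [f1 a b ha, f1 a c ha, f1 a d ha, g1 a b ha, g1 a c ha, g1 a d ha]
    ring

private theorem l3_swap12 {N : ℕ} {f g : Fin N → Fin N → ℝ} (hf : ∀ i j, f i j = - f j i)
    (hg : ∀ i j, g i j = - g j i) (a b c d : Fin N) : pol f g b a c d = - pol f g a b c d := by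
  unfold pol
  rw [hf b a, hg b a]
  ring

private theorem l3_swap23 {N : ℕ} {f g : Fin N → Fin N → ℝ} (hf : ∀ i j, f i j = - f j i)
    (hg : ∀ i j, g i j = - g j i) (a b c d : Fin N) : pol f g a c b d = - pol f g a b c d := by
  unfold pol
  rw [hf c b, hg c b]
  ring

private theorem l3_swap34 {N : ℕ} {f g : Fin N → Fin N → ℝ} (hf : ∀ i j, f i j = - f j i)
    (hg : ∀ i j, g i j = - g j i) (a b c d : Fin N) : pol f g a b d c = - pol f g a b c d := by
  unfold pol
  rw [hf d c, hg d c]
  ring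

/-- PROOF: if one of `a, b, c, d` is not in `S`, every term has a factor `0`; if two of them are equal, `pol = 0` (skewness); otherwise they
are `e` of the four indices in some order and `pol` is alternating: `24` cases, or: `a = e (τ 0)`, .. for a permutation `τ` of `Fin 4`
(`decide`/`fin_cases` on the four indices, 256 cases, each closed by the skewness relations and `h` with `linarith`). -/
theorem pol_four {N : ℕ} {f g : Fin N → Fin N → ℝ} (hf : ∀ i j, f i j = - f j i) (hg : ∀ i j, g i j = - g j i)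
    {S : Finset (Fin N)} (hfS : ∀ i j, f i j ≠ 0 → i ∈ S ∧ j ∈ S) (hgS : ∀ i j, g i j ≠ 0 → i ∈ S ∧ j ∈ S)
    (e : Fin 4 → Fin N) (he : ∀ a ∈ S, ∃ k, a = e k) (h : pol f g (e 0) (e 1) (e 2) (e 3) = 0) (a b c d : Fin N) :
    pol f g a b c d = 0 := by
  by_cases hS : a ∈ S ∧ b ∈ S ∧ c ∈ S ∧ d ∈ S
  · obtain ⟨i, rfl⟩ := he a hS.1
    obtain ⟨j, rfl⟩ := he b hS.2.1
    obtain ⟨k, rfl⟩ := he c hS.2.2.1
    obtain ⟨l, rfl⟩ := he d hS.2.2.2
    have f00 := l3_diag hf (e 0)
    have f11 := l3_diag hf (e 1)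
    have f22 := l3_diag hf (e 2)
    have f33 := l3_diag hf (e 3)
    have g00 := l3_diag hg (e 0)
    have g11 := l3_diag hg (e 1)
    have g22 := l3_diag hg (e 2)
    have g33 := l3_diag hg (e 3)
    have f10 := hf (e 1) (e 0)
    have f20 := hf (e 2) (e 0)
    have f30 := hf (e 3) (e 0)
    have f21 := hf (e 2) (e 1)
    have f31 := hf (e 3) (e 1)
    have f32 := hf (e 3) (e 2)
    have g10 := hg (e 1) (e 0)
    have g20 := hg (e 2) (e 0)
    have g30 := hg (e 3) (e 0)
    have g21 := hg (e 2) (e 1)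
    have g31 := hg (e 3) (e 1)
    have g32 := hg (e 3) (e 2)
    unfold pol at h ⊢
    fin_cases i <;> fin_cases j <;> fin_cases k <;> fin_cases l <;>
      simp only [Fin.zero_eta, Fin.mk_one, Fin.reduceFinMk, f00, f11, f22, f33, g00, g11, g22, g33, f10, f20, f30,
        f21, f31, f32, g10, g20, g30, g21, g31, g32] <;> linarith
  · exact l3_out hfS hgS a b c d hS

/-- PROOF: as above; four elements of a set of at most two (three) elements are not different. -/
theorem pol_two {N : ℕ} {f g : Fin N → Fin N → ℝ} (hf : ∀ i j, f i j = - f j i) (hg : ∀ i j, g i j = - g j i)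
    {S : Finset (Fin N)} (hfS : ∀ i j, f i j ≠ 0 → i ∈ S ∧ j ∈ S) (hgS : ∀ i j, g i j ≠ 0 → i ∈ S ∧ j ∈ S)
    (hS : S.card ≤ 2) (a b c d : Fin N) : pol f g a b c d = 0 := by
  by_cases hm : a ∈ S ∧ b ∈ S ∧ c ∈ S ∧ d ∈ S
  · by_cases h1 : a = b
    · subst h1
      linarith [l3_swap12 hf hg a a c d]
    · by_cases h2 : c = b
      · subst h2
        linarith [l3_swap23 hf hg a c c d]
      · by_cases h3 : c = a
        · subst h3
          linarith [l3_swap12 hf hg c b c d, l3_swap23 hf hg b c c d]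
        · exfalso
          have h4 : ({a, b, c} : Finset (Fin N)) ⊆ S := by
            intro x hx
            simp only [Finset.mem_insert, Finset.mem_singleton] at hx
            rcases hx with rfl | rfl | rfl
            · exact hm.1
            · exact hm.2.1
            · exact hm.2.2.1
          have h5 := Finset.card_le_card h4
          have h6 : ({a, b, c} : Finset (Fin N)).card = 3 := by
            rw [Finset.card_eq_three]
            exact ⟨a, b, c, h1, fun hh => h3 hh.symm, fun hh => h2 hh.symm, rfl⟩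
          omega
  · exact l3_out hfS hgS a b c d hm

theorem pol_comm {N : ℕ} (f g : Fin N → Fin N → ℝ) (a b c d : Fin N) : pol f g a b c d = pol g f a b c d := by
  unfold pol
  ring

end H7HB
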