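import Pool.Agent.Lib.H7HB.L1b
import Pool.Agent.Lib.H7HB.L3
import Pool.Agent.Lib.H7HB.L4a

/-! # H7HB, chunk L4b: the adapted family of forms -/

set_option autoImplicit false

namespace H7HB

open Finset Equiv Pool.Agent.H69Hopf

private theorem inner_W {N K : ℕ} (w : Fin K → Fin N → Fin N → ℝ) (i j k l : Fin N) :
    inner ℝ (W w i j) (W w k l) = ∑ x, w x i j * w x k l := by
  simp [W, PiLp.inner_apply, mul_comm]

private theorem mem_B {N : ℕ} {p q : Fin N} {bk : Fin N → ℕ} {j : ℕ} {u : Fin N} :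
    u ∈ B p q bk j ↔ u ≠ p ∧ u ≠ q ∧ bk u = j := by
  simp [B]

private noncomputable def FF {N K : ℕ} (w : Fin K → Fin N → Fin N → ℝ) (p q : Fin N)
    (bk : Fin N → ℕ) (j : ℕ) : Submodule ℝ (EuclideanSpace ℝ (Fin K)) :=
  Submodule.span ℝ {v | ∃ a b, a ∈ B p q bk j ∧ b ∈ B p q bk j ∧ v = W w a b}

private noncomputable def qq {N K : ℕ} (w : Fin K → Fin N → Fin N → ℝ) (e : Fin 4 → Fin N) :
    EuclideanSpace ℝ (Fin K) →ₗ[ℝ] EuclideanSpace ℝ (Fin K) →ₗ[ℝ] ℝ :=
  LinearMap.mk₂ ℝ (fun x y => pol (fun i j => inner ℝ x (W w i j)) (fun i j => inner ℝ y (W w i j))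
      (e 0) (e 1) (e 2) (e 3))
    (by intro x x' y; simp only [pol, inner_add_left]; ring)
    (by intro c x y; simp only [pol, real_inner_smul_left, smul_eq_mul]; ring)
    (by intro x y y'; simp only [pol, inner_add_left]; ring)
    (by intro c x y; simp only [pol, real_inner_smul_left, smul_eq_mul]; ring)

private theorem qq_apply {N K : ℕ} (w : Fin K → Fin N → Fin N → ℝ) (e : Fin 4 → Fin N)
    (x y : EuclideanSpace ℝ (Fin K)) : qq w e x y = pol (fun i j => inner ℝ x (W w i j))
      (fun i j => inner ℝ y (W w i j)) (e 0) (e 1) (e 2) (e 3) := rfl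

private theorem inner_FF {N K : ℕ} {w : Fin K → Fin N → Fin N → ℝ} {p q : Fin N} {bk : Fin N → ℕ}
    (hB : ∀ i j k l, i ≠ p → i ≠ q → j ≠ p → j ≠ q → k ≠ p → k ≠ q → l ≠ p → l ≠ q →
      ∑ x, w x i j * w x k l ≠ 0 → bk i = bk j ∧ bk j = bk k ∧ bk k = bk l)
    {j0 : ℕ} {v : EuclideanSpace ℝ (Fin K)} (hv : v ∈ FF w p q bk j0) {i j : Fin N}
    (h1 : i ≠ p) (h2 : i ≠ q) (h3 : j ≠ p) (h4 : j ≠ q) (hne : inner ℝ v (W w i j) ≠ 0) :
    bk i = j0 ∧ bk j = j0 := by
  by_contra hc
  apply hne
  refine Submodule.span_induction (p := fun v _ => inner ℝ v (W w i j) = 0) ?_ ?_ ?_ ?_ hv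
  · rintro _ ⟨a, b, ha, hb, rfl⟩
    rw [inner_W]
    by_contra h5
    obtain ⟨ha1, ha2, ha3⟩ := mem_B.1 ha
    obtain ⟨hb1, hb2, hb3⟩ := mem_B.1 hb
    obtain ⟨e1, e2, e3⟩ := hB a b i j ha1 ha2 hb1 hb2 h1 h2 h3 h4 h5
    apply hc
    constructor
    · rw [← e2, hb3]
    · rw [← e3, ← e2, hb3]
  · exact inner_zero_left _
  · intro x y _ _ hx hy
    rw [inner_add_left, hx, hy, add_zero]
  · intro c x _ hx
    rw [real_inner_smul_left, hx, mul_zero]

private theorem FF_orth {N K : ℕ} {w : Fin K → Fin N → Fin N → ℝ} {p q : Fin N} {bk : Fin N → ℕ}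
    (hB : ∀ i j k l, i ≠ p → i ≠ q → j ≠ p → j ≠ q → k ≠ p → k ≠ q → l ≠ p → l ≠ q →
      ∑ x, w x i j * w x k l ≠ 0 → bk i = bk j ∧ bk j = bk k ∧ bk k = bk l)
    {j l : ℕ} (hjl : j ≠ l) {x y : EuclideanSpace ℝ (Fin K)} (hx : x ∈ FF w p q bk j)
    (hy : y ∈ FF w p q bk l) : inner ℝ x y = 0 := by
  refine Submodule.span_induction (p := fun y _ => inner ℝ x y = 0) ?_ ?_ ?_ ?_ hy
  · rintro _ ⟨a, b, ha, hb, rfl⟩
    by_contra h5
    obtain ⟨ha1, ha2, ha3⟩ := mem_B.1 ha
    obtain ⟨hb1, hb2, hb3⟩ := mem_B.1 hb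
    have h6 := (inner_FF hB hx ha1 ha2 hb1 hb2 h5).1
    exact hjl (by rw [← h6, ha3])
  · exact inner_zero_right _
  · intro y z _ _ hy hz
    rw [inner_add_right, hy, hz, add_zero]
  · intro c y _ hy
    rw [real_inner_smul_right, hy, mul_zero]

/-- PROOF: `J` = the subtype of the values `bk u`, `u ≠ p, q` (a finite set of numbers); `F j` = span of the `W w a b`, `a, b` in the block `j`
(`B p q bk j`). By `hB`: `⟪W a b, W c d⟫ = Σ_x w x a b * w x c d = 0` if `a, b, c, d` (all different from `p, q`) are not all in one block;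
in particular `W a b = 0` if `a, b` are in different blocks, and the `F j` are orthogonal (`Submodule.span_induction`). For a block of four
elements `e 0, .., e 3` (enumeration) `q j x y = pol (f_x) (f_y) (e 0) (e 1) (e 2) (e 3)`, `f_x i j = ⟪x, W w i j⟫` (bilinear in `x, y`,
symmetric: `pol_comm`); otherwise `q j = 0`. `collect` gives `b`, `lab`; `w' = rot w b`, `bl x = j` if `lab x = some j`, and `bl x =` a
number not in `J` if `lab x = none` (for example `1 + Σ_u bk u`). `supp`: `rs p q (w' x) i j = ⟪b x, W i j⟫`: if `b x ∈ F j0`, it is `0` unless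
`i, j` are in the block `j0`; if `lab x = none` it is always `0`. `pol`: `pol_four` or `pol_two` (blocks of 4 or ≤ 2 elements), for
`lab = none` all terms are `0`. `one`: the block is `{a, b}`, `F j` is spanned by `W a b`; two different orthonormal vectors cannot both be
multiples of it; `lab = none`: `rs = 0`. -/
theorem exists_blk {n K : ℕ} {w : Fin K → Fin (2 * n) → Fin (2 * n) → ℝ} (hs : ∀ x i j, w x i j = - w x j i)
    {p q : Fin (2 * n)} (hpq : p ≠ q) {bk : Fin (2 * n) → ℕ}
    (size : ∀ j, (B p q bk j).card = 0 ∨ (B p q bk j).card = 2 ∨ (B p q bk j).card = 4)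
    (hB : ∀ i j k l, i ≠ p → i ≠ q → j ≠ p → j ≠ q → k ≠ p → k ≠ q → l ≠ p → l ≠ q →
      ∑ x, w x i j * w x k l ≠ 0 → bk i = bk j ∧ bk j = bk k ∧ bk k = bk l) :
    ∃ (ι : Type) (_ : Fintype ι) (_ : DecidableEq ι) (w' : ι → Fin (2 * n) → Fin (2 * n) → ℝ) (bl : ι → ℕ),
      Blk w' p q bk bl ∧ ∀ i j k l, ∑ x, w' x i j * w' x k l = ∑ x, w x i j * w x k l := by
  classical
  set S : Finset ℕ := (univ.filter fun u : Fin (2 * n) => u ≠ p ∧ u ≠ q).image bk with hS
  have hmemS : ∀ u, u ≠ p → u ≠ q → bk u ∈ S := fun u h1 h2 =>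
    Finset.mem_image.2 ⟨u, Finset.mem_filter.2 ⟨Finset.mem_univ u, h1, h2⟩, rfl⟩
  set e : ℕ → Fin 4 → Fin (2 * n) := fun j =>
    if h : (B p q bk j).card = 4 then fun k => (((B p q bk j).equivFinOfCardEq h).symm k : Fin (2 * n))
    else fun _ => p with he
  have heS : ∀ j, (B p q bk j).card = 4 → ∀ a ∈ B p q bk j, ∃ k, a = e j k := by
    intro j h4 a ha
    refine ⟨(B p q bk j).equivFinOfCardEq h4 ⟨a, ha⟩, ?_⟩
    simp only [he, dif_pos h4, Equiv.symm_apply_apply]
  have heB : ∀ j, (B p q bk j).card = 4 → ∀ k, e j k ∈ B p q bk j := by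
    intro j h4 k
    simp only [he, dif_pos h4]
    exact (((B p q bk j).equivFinOfCardEq h4).symm k).2
  obtain ⟨ι, i1, i2, b, lab, hb1, hb2, hb3⟩ := collect (J := {j // j ∈ S})
    (fun j => FF w p q bk (j : ℕ))
    (fun j l hjl x hx y hy => FF_orth hB (fun h => hjl (Subtype.ext h)) hx hy)
    (fun j => qq w (e (j : ℕ)))
    (fun j x y => by rw [qq_apply, qq_apply, pol_comm])
  have hnone : ∀ x, lab x = none → ∀ i j, rs p q (rot w b x) i j = 0 := by
    intro x hx i j
    by_contra hne
    obtain ⟨h1, h2, h3, h4, h5⟩ := rs_ne hne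
    by_cases hij : bk i = bk j
    · apply h5
      exact hb2 x hx ⟨bk i, hmemS i h1 h2⟩ (W w i j)
        (Submodule.subset_span ⟨i, j, mem_B.2 ⟨h1, h2, rfl⟩, mem_B.2 ⟨h3, h4, hij.symm⟩, rfl⟩)
    · have h0 : W w i j = 0 := by
        rw [← inner_self_eq_zero (𝕜 := ℝ), inner_W]
        by_contra h6
        exact hij (hB i j i j h1 h2 h3 h4 h1 h2 h3 h4 h6).1
      apply h5
      show inner ℝ (b x) (W w i j) = 0
      rw [h0, inner_zero_right]
  have hsome : ∀ x j0, lab x = some j0 → ∀ i j, rs p q (rot w b x) i j ≠ 0 →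
      i ∈ B p q bk (j0 : ℕ) ∧ j ∈ B p q bk (j0 : ℕ) := by
    intro x j0 hx i j hne
    obtain ⟨h1, h2, h3, h4, h5⟩ := rs_ne hne
    have h6 := inner_FF hB (hb1 x j0 hx) h1 h2 h3 h4 h5
    exact ⟨mem_B.2 ⟨h1, h2, h6.1⟩, mem_B.2 ⟨h3, h4, h6.2⟩⟩
  have hsk : ∀ x i j, rs p q (rot w b x) i j = - rs p q (rot w b x) j i := by
    intro x i j
    unfold rs
    by_cases h1 : i = p ∨ i = q ∨ j = p ∨ j = q
    · have h2 : j = p ∨ j = q ∨ i = p ∨ i = q := by tauto
      rw [if_pos h1, if_pos h2, neg_zero]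
    · have h2 : ¬ (j = p ∨ j = q ∨ i = p ∨ i = q) := by tauto
      rw [if_neg h1, if_neg h2]
      exact rot_skew hs b x i j
  set M : ℕ := 1 + ∑ u, bk u with hM
  have hMS : ∀ j ∈ S, j ≠ M := by
    intro j hj
    obtain ⟨u, -, rfl⟩ := Finset.mem_image.1 hj
    have h1 : bk u ≤ ∑ u, bk u := Finset.single_le_sum (f := bk) (fun _ _ => Nat.zero_le _) (Finset.mem_univ u)
    omega
  set bl : ι → ℕ := fun x => (lab x).elim M (fun j => (j : ℕ)) with hbl
  have hbl1 : ∀ x j, lab x = some j → bl x = (j : ℕ) := by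
    intro x j hx
    simp only [hbl, hx, Option.elim_some]
  refine ⟨ι, i1, i2, rot w b, bl, ⟨hpq, rot_skew hs b, ?_, ?_, size, ?_⟩, rot_sum w b⟩
  · intro x i j hne
    rcases hx : lab x with _ | j0
    · exact absurd (hnone x hx i j) hne
    · have h6 := hsome x j0 hx i j hne
      rw [hbl1 x j0 hx]
      exact ⟨(mem_B.1 h6.1).2.2, (mem_B.1 h6.2).2.2⟩
  · intro x y hxy hbb a b' c d
    rcases hx : lab x with _ | j
    · simp only [pol, hnone x hx, zero_mul, mul_zero, sub_zero, add_zero]
    · rcases hy : lab y with _ | l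
      · simp only [pol, hnone y hy, zero_mul, mul_zero, sub_zero, add_zero]
      · have hjl : j = l := Subtype.ext (by rw [← hbl1 x j hx, ← hbl1 y l hy, hbb])
        subst hjl
        have hsmall : (B p q bk (j : ℕ)).card ≤ 2 →
            pol (rs p q (rot w b x)) (rs p q (rot w b y)) a b' c d = 0 := fun hle =>
          pol_two (hsk x) (hsk y) (hsome x j hx) (hsome y j hy) hle a b' c d
        rcases size (j : ℕ) with h0 | h2 | h4
        · exact hsmall (by omega)
        · exact hsmall (by omega)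
        · refine pol_four (hsk x) (hsk y) (hsome x j hx) (hsome y j hy) (e (j : ℕ)) (heS _ h4) ?_ a b' c d
          have h5 := hb3 x y hxy j hx hy
          rw [qq_apply] at h5
          have h6 : ∀ z k k', rs p q (rot w b z) (e (j : ℕ) k) (e (j : ℕ) k') =
              inner ℝ (b z) (W w (e (j : ℕ) k) (e (j : ℕ) k')) := by
            intro z k k'
            obtain ⟨g1, g2, -⟩ := mem_B.1 (heB _ h4 k)
            obtain ⟨g3, g4, -⟩ := mem_B.1 (heB _ h4 k')
            rw [rs_of (rot w b z) g1 g2 g3 g4]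
            rfl
          simp only [pol, h6] at h5 ⊢
          exact h5
  · intro x y hxy hbb hc2
    rcases hx : lab x with _ | j
    · left
      funext i k
      exact hnone x hx i k
    · rcases hy : lab y with _ | l
      · right
        funext i k
        exact hnone y hy i k
      · exfalso
        have hjl : j = l := Subtype.ext (by rw [← hbl1 x j hx, ← hbl1 y l hy, hbb])
        subst hjl
        rw [hbl1 x j hx] at hc2
        obtain ⟨a, c, hac, hB2⟩ := Finset.card_eq_two.1 hc2
        have hWs : ∀ i k, W w i k = - W w k i := by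
          intro i k
          ext z
          exact hs z i k
        have hW0 : ∀ i, W w i i = 0 := by
          intro i
          ext z
          have := hs z i i
          show w z i i = 0
          linarith
        have hle : FF w p q bk (j : ℕ) ≤ Submodule.span ℝ {W w a c} := by
          refine Submodule.span_le.2 ?_
          rintro _ ⟨i, k, hi, hk, rfl⟩
          rw [hB2] at hi hk
          have hself : W w a c ∈ Submodule.span ℝ {W w a c} := Submodule.mem_span_singleton_self _
          rcases Finset.mem_insert.1 hi with rfl | hi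
          · rcases Finset.mem_insert.1 hk with rfl | hk
            · show W w k k ∈ Submodule.span ℝ {W w k c}
              rw [hW0]
              exact Submodule.zero_mem _
            · rw [Finset.mem_singleton.1 hk]
              exact hself
          · rw [Finset.mem_singleton.1 hi]
            rcases Finset.mem_insert.1 hk with rfl | hk
            · show W w c k ∈ Submodule.span ℝ {W w k c}
              rw [hWs c k]
              exact Submodule.neg_mem _ hself
            · rw [Finset.mem_singleton.1 hk, SetLike.mem_coe, hW0]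
              exact Submodule.zero_mem _
        obtain ⟨α, hα⟩ := Submodule.mem_span_singleton.1 (hle (hb1 x j hx))
        obtain ⟨β, hβ⟩ := Submodule.mem_span_singleton.1 (hle (hb1 y j hy))
        have h7 : inner ℝ (b x) (b y) = 0 := b.orthonormal.2 hxy
        have hx0 : b x ≠ 0 := b.orthonormal.ne_zero x
        have hy0 : b y ≠ 0 := b.orthonormal.ne_zero y
        rw [← hα, ← hβ, real_inner_smul_left, real_inner_smul_right] at h7
        rcases mul_eq_zero.1 h7 with h8 | h8
        · exact hx0 (by rw [← hα, h8, zero_smul])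
        · rcases mul_eq_zero.1 h8 with h9 | h9
          · exact hy0 (by rw [← hβ, h9, zero_smul])
          · rw [inner_self_eq_zero] at h9
            exact hx0 (by rw [← hα, h9, smul_zero])

end H7HB
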