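import Pool.Agent.Lib.H7HB.D

/-! # H7HB, chunk L5: a nonnegative operator on two-forms is a sum of squares -/

set_option autoImplicit false

namespace H7HB

open Finset Pool.Agent.H69Hopf

private def l5_B {N : ℕ} (P : Arr N) (u v : Fin N → Fin N → ℝ) : ℝ :=
  ∑ i, ∑ j, ∑ k, ∑ l, P i j k l * u i j * v k l

private theorem l5_swap1 {N : ℕ} (P : Arr N) (h1 : ∀ i j k l, P i j k l = - P j i k l)
    (u v : Fin N → Fin N → ℝ) : l5_B P (fun i j => u j i) v = - l5_B P u v := by
  unfold l5_B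
  rw [Finset.sum_comm]
  simp only [← Finset.sum_neg_distrib]
  refine Finset.sum_congr rfl fun i _ => Finset.sum_congr rfl fun j _ =>
    Finset.sum_congr rfl fun k _ => Finset.sum_congr rfl fun l _ => ?_
  rw [h1 j i k l]
  ring

private theorem l5_swap2 {N : ℕ} (P : Arr N) (h2 : ∀ i j k l, P i j k l = - P i j l k)
    (u v : Fin N → Fin N → ℝ) : l5_B P u (fun i j => v j i) = - l5_B P u v := by
  unfold l5_B
  simp only [← Finset.sum_neg_distrib]
  refine Finset.sum_congr rfl fun i _ => Finset.sum_congr rfl fun j _ => ?_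
  rw [Finset.sum_comm]
  refine Finset.sum_congr rfl fun k _ => Finset.sum_congr rfl fun l _ => ?_
  rw [h2 i j l k]
  ring

private theorem l5_lin1 {N : ℕ} (P : Arr N) (c : ℝ) (u u' v : Fin N → Fin N → ℝ) :
    l5_B P (fun i j => c * (u i j - u' i j)) v = c * (l5_B P u v - l5_B P u' v) := by
  unfold l5_B
  simp only [← Finset.sum_sub_distrib, Finset.mul_sum]
  refine Finset.sum_congr rfl fun i _ => Finset.sum_congr rfl fun j _ =>
    Finset.sum_congr rfl fun k _ => Finset.sum_congr rfl fun l _ => ?_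
  ring

private theorem l5_lin2 {N : ℕ} (P : Arr N) (c : ℝ) (u v v' : Fin N → Fin N → ℝ) :
    l5_B P u (fun i j => c * (v i j - v' i j)) = c * (l5_B P u v - l5_B P u v') := by
  unfold l5_B
  simp only [← Finset.sum_sub_distrib, Finset.mul_sum]
  refine Finset.sum_congr rfl fun i _ => Finset.sum_congr rfl fun j _ =>
    Finset.sum_congr rfl fun k _ => Finset.sum_congr rfl fun l _ => ?_
  ring

private theorem l5_skew {N : ℕ} (P : Arr N) (h1 : ∀ i j k l, P i j k l = - P j i k l)
    (h2 : ∀ i j k l, P i j k l = - P i j l k) (v : Fin N → Fin N → ℝ) :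
    l5_B P (fun i j => (1 / 2 : ℝ) * (v i j - v j i)) (fun i j => (1 / 2 : ℝ) * (v i j - v j i)) =
      l5_B P v v := by
  rw [l5_lin1 P (1 / 2) v (fun i j => v j i), l5_lin2 P (1 / 2) v v (fun i j => v j i),
    l5_lin2 P (1 / 2) (fun i j => v j i) v (fun i j => v j i), l5_swap2 P h2 v v,
    l5_swap2 P h2 (fun i j => v j i) v, l5_swap1 P h1 v v]
  ring

private theorem l5_psd {N : ℕ} (P : Arr N) (h1 : ∀ i j k l, P i j k l = - P j i k l)
    (h2 : ∀ i j k l, P i j k l = - P i j l k) (h3 : ∀ i j k l, P i j k l = P k l i j)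
    (h : ∀ v : Matrix (Fin N) (Fin N) ℝ, v.transpose = -v →
      0 ≤ ∑ i, ∑ j, ∑ k, ∑ l, P i j k l * v i j * v k l) :
    (Matrix.of fun a b : Fin N × Fin N => P a.1 a.2 b.1 b.2 :
      Matrix (Fin N × Fin N) (Fin N × Fin N) ℝ).PosSemidef := by
  refine Matrix.PosSemidef.of_dotProduct_mulVec_nonneg ?_ fun x => ?_
  · ext a b
    simp only [Matrix.conjTranspose_apply, Matrix.of_apply, star_trivial]
    exact h3 _ _ _ _
  · have e1 : star x ⬝ᵥ (Matrix.of fun a b : Fin N × Fin N => P a.1 a.2 b.1 b.2).mulVec x =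
        l5_B P (fun i j => x (i, j)) (fun i j => x (i, j)) := by
      unfold l5_B
      simp only [dotProduct, Matrix.mulVec, Matrix.of_apply, star_trivial, Fintype.sum_prod_type,
        Finset.mul_sum, Pi.star_apply]
      refine Finset.sum_congr rfl fun i _ => Finset.sum_congr rfl fun j _ =>
        Finset.sum_congr rfl fun k _ => Finset.sum_congr rfl fun l _ => ?_
      ring
    rw [e1, ← l5_skew P h1 h2]
    refine h (Matrix.of fun i j => (1 / 2 : ℝ) * (x (i, j) - x (j, i))) ?_
    ext i j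
    simp only [Matrix.transpose_apply, Matrix.of_apply, Matrix.neg_apply]
    ring

/-- PROOF: the matrix `M (i, j) (k, l) = P i j k l` on `Fin N × Fin N` is symmetric (`h3`) and nonnegative: for every `v`, with the skew part
`s i j = (v i j - v j i) / 2`, `Σ P v v = Σ P s s ≥ 0` (`h1`, `h2`). So `M = Aᵀ * A` (`Matrix.posSemidef_iff_eq_conjTranspose_mul_self` or the
square root), the rows of `A` indexed by `Fin N × Fin N ≃ Fin K`; `w x i j = (A x (i, j) - A x (j, i)) / 2`. -/
theorem psd_sum {N : ℕ} (P : Arr N) (h1 : ∀ i j k l, P i j k l = - P j i k l) (h2 : ∀ i j k l, P i j k l = - P i j l k)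
    (h3 : ∀ i j k l, P i j k l = P k l i j)
    (h : ∀ v : Matrix (Fin N) (Fin N) ℝ, v.transpose = -v → 0 ≤ ∑ i, ∑ j, ∑ k, ∑ l, P i j k l * v i j * v k l) :
    ∃ (K : ℕ) (w : Fin K → Fin N → Fin N → ℝ), (∀ x i j, w x i j = - w x j i) ∧
      ∀ i j k l, P i j k l = ∑ x, w x i j * w x k l := by
  obtain ⟨K, A, hA⟩ := Matrix.posSemidef_iff_eq_sum_vecMulVec.1 (l5_psd P h1 h2 h3 h)
  have hP : ∀ i j k l, P i j k l = ∑ a : Fin K, A a (i, j) * A a (k, l) := by
    intro i j k l
    have h4 := congrFun (congrFun hA (i, j)) (k, l)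
    rw [Matrix.sum_apply] at h4
    simp only [Matrix.of_apply, Matrix.vecMulVec_apply, Pi.star_apply, star_trivial] at h4
    exact h4
  refine ⟨K, fun x i j => (A x (i, j) - A x (j, i)) / 2, fun x i j => by ring, fun i j k l => ?_⟩
  have h6 : ∑ a : Fin K, (A a (i, j) - A a (j, i)) / 2 * ((A a (k, l) - A a (l, k)) / 2) =
      (P i j k l - P i j l k - P j i k l + P j i l k) / 4 := by
    rw [hP i j k l, hP i j l k, hP j i k l, hP j i l k, ← Finset.sum_sub_distrib,
      ← Finset.sum_sub_distrib, ← Finset.sum_add_distrib, Finset.sum_div]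
    refine Finset.sum_congr rfl fun a _ => ?_
    ring
  rw [h6, h1 j i k l, h1 j i l k, h2 i j l k]
  ring

end H7HB
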