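import Pool.Agent.Lib.H7HB.A1a

/-! # H7HB, chunk A1b: wedge product zero -/

set_option autoImplicit false

namespace H7HB

open Finset Equiv Pool.Agent.H69Hopf

/-- PROOF: like `H39G.vanish` (Lib/H39G/G3.lean, `s` replaced by the two slots): with `F σ` the term of `σ`, sum `F` over
the compositions of `σ` with the permutations of `snd s, fst t, snd t` (and the one exchanging the two pairs): with
`a, b, c, d = σ (fst s), σ (snd s), σ (fst t), σ (snd t)` the six terms (divided by the other factors) are the terms of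
`pol (f s) (f t) a b c d`; `f s`, `f t` are skew. (Or: `2 F`-symmetrize by `Equiv.mulRight` of the double swap.) -/
theorem mp_pol {n : ℕ} (f : Fin n → Fin (2 * n) → Fin (2 * n) → ℝ) {s t : Fin n} (hst : s ≠ t)
    (h1 : ∀ i j, f s i j = - f s j i) (h2 : ∀ i j, f t i j = - f t j i) (h : ∀ a b c d, pol (f s) (f t) a b c d = 0) :
    mp f = 0 := by
  classical
  have hts : t ∈ (univ : Finset (Fin n)).erase s := mem_erase.2 ⟨hst.symm, mem_univ _⟩
  let G : Perm (Fin (2 * n)) → ℝ := fun σ => ∏ l ∈ (univ.erase s).erase t, f l (σ (fst l)) (σ (snd l))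
  let H : Fin (2 * n) → Fin (2 * n) → Fin (2 * n) → Fin (2 * n) → ℝ := fun a b c d => f s a b * f t c d + f t a b * f s c d
  let K : Perm (Fin (2 * n)) → ℝ := fun σ => ((Perm.sign σ : ℤ) : ℝ) *
    (H (σ (fst s)) (σ (snd s)) (σ (fst t)) (σ (snd t)) * G σ)
  have hK : ∑ σ, K σ = 2 * mp f := by
    have e1 : mp f = ∑ σ : Perm (Fin (2 * n)), ((Perm.sign σ : ℤ) : ℝ) *
        ((f s (σ (fst s)) (σ (snd s)) * f t (σ (fst t)) (σ (snd t))) * G σ) := by
      unfold mp
      refine Finset.sum_congr rfl fun σ _ => ?_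
      rw [← Finset.mul_prod_erase univ _ (mem_univ s), ← Finset.mul_prod_erase _ _ hts]
      ring
    have e2 : mp f = ∑ σ : Perm (Fin (2 * n)), ((Perm.sign σ : ℤ) : ℝ) *
        ((f t (σ (fst s)) (σ (snd s)) * f s (σ (fst t)) (σ (snd t))) * G σ) := by
      rw [← mp_swap f s t]
      unfold mp
      refine Finset.sum_congr rfl fun σ _ => ?_
      rw [← Finset.mul_prod_erase univ _ (mem_univ s), ← Finset.mul_prod_erase _ _ hts]
      simp only [swap_apply_left, swap_apply_right]
      have e3 : ∏ l ∈ (univ.erase s).erase t, f (swap s t l) (σ (fst l)) (σ (snd l)) = G σ := by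
        refine Finset.prod_congr rfl fun l hl => ?_
        rw [mem_erase, mem_erase] at hl
        rw [swap_apply_of_ne_of_ne hl.2.1 hl.1]
      rw [e3]
      ring
    have e4 : 2 * mp f = mp f + mp f := by ring
    rw [e4]
    nth_rewrite 1 [e1]
    rw [e2, ← Finset.sum_add_distrib]
    refine Finset.sum_congr rfl fun σ _ => ?_
    simp only [K, H]
    ring
  have hG : ∀ (x : Fin (2 * n)), (x = fst t ∨ x = snd t) → ∀ σ : Perm (Fin (2 * n)), G (σ * swap (snd s) x) = G σ := by
    intro x hx σ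
    refine Finset.prod_congr rfl fun l hl => ?_
    rw [mem_erase, mem_erase] at hl
    have e1 : fst l ≠ x := by
      rcases hx with rfl | rfl
      · exact fun e => hl.1 (fst_inj.1 e)
      · exact fst_ne_snd l t
    have e2 : snd l ≠ x := by
      rcases hx with rfl | rfl
      · exact fun e => fst_ne_snd t l e.symm
      · exact fun e => hl.1 (snd_inj.1 e)
    rw [Perm.mul_apply, Perm.mul_apply, swap_apply_of_ne_of_ne (fst_ne_snd l s) e1,
      swap_apply_of_ne_of_ne (fun e => hl.2.1 (snd_inj.1 e)) e2]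
  have hsg : ∀ (x : Fin (2 * n)), snd s ≠ x → ∀ σ : Perm (Fin (2 * n)),
      ((Perm.sign (σ * swap (snd s) x) : ℤ) : ℝ) = - ((Perm.sign σ : ℤ) : ℝ) := by
    intro x hx σ
    rw [Perm.sign_mul, Perm.sign_swap hx]
    push_cast
    ring
  have n1 : snd s ≠ fst t := fun e => fst_ne_snd t s e.symm
  have n2 : snd s ≠ snd t := fun e => hst (snd_inj.1 e)
  have n3 : fst s ≠ fst t := fun e => hst (fst_inj.1 e)
  have k1 : ∀ σ : Perm (Fin (2 * n)), K (σ * swap (snd s) (fst t)) = - (((Perm.sign σ : ℤ) : ℝ) *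
      (H (σ (fst s)) (σ (fst t)) (σ (snd s)) (σ (snd t)) * G σ)) := by
    intro σ
    simp only [K]
    rw [hsg _ n1, hG _ (Or.inl rfl), Perm.mul_apply, Perm.mul_apply, Perm.mul_apply, Perm.mul_apply,
      swap_apply_left, swap_apply_right, swap_apply_of_ne_of_ne (fst_ne_snd s s) n3,
      swap_apply_of_ne_of_ne n2.symm (fst_ne_snd t t).symm]
    ring
  have k2 : ∀ σ : Perm (Fin (2 * n)), K (σ * swap (snd s) (snd t)) = - (((Perm.sign σ : ℤ) : ℝ) *
      (H (σ (fst s)) (σ (snd t)) (σ (fst t)) (σ (snd s)) * G σ)) := by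
    intro σ
    simp only [K]
    rw [hsg _ n2, hG _ (Or.inr rfl), Perm.mul_apply, Perm.mul_apply, Perm.mul_apply, Perm.mul_apply,
      swap_apply_left, swap_apply_right, swap_apply_of_ne_of_ne (fst_ne_snd s s) (fst_ne_snd s t),
      swap_apply_of_ne_of_ne (fst_ne_snd t s) (fst_ne_snd t t)]
    ring
  have s1 : ∑ σ, K (σ * swap (snd s) (fst t)) = ∑ σ, K σ :=
    Equiv.sum_comp (Equiv.mulRight (swap (snd s) (fst t))) K
  have s2 : ∑ σ, K (σ * swap (snd s) (snd t)) = ∑ σ, K σ :=
    Equiv.sum_comp (Equiv.mulRight (swap (snd s) (snd t))) K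
  have tot : ∑ σ, K σ + ∑ σ, K (σ * swap (snd s) (fst t)) + ∑ σ, K (σ * swap (snd s) (snd t)) = 0 := by
    rw [← Finset.sum_add_distrib, ← Finset.sum_add_distrib]
    refine Finset.sum_eq_zero fun σ _ => ?_
    rw [k1, k2]
    have e := h (σ (fst s)) (σ (snd s)) (σ (fst t)) (σ (snd t))
    unfold pol at e
    simp only [K, H]
    rw [h1 (σ (fst t)) (σ (snd s)), h2 (σ (fst t)) (σ (snd s))]
    linear_combination (((Perm.sign σ : ℤ) : ℝ) * G σ) * e
  rw [s1, s2, hK] at tot
  linarith

end H7HB
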