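import Pool.Agent.Lib.H7HB.D

/-! # H7HB, chunk A3a: a nonzero term of h -/

set_option autoImplicit false

namespace H7HB

open Finset Equiv Pool.Agent.H69Hopf

variable {n : ℕ} {ι : Type} {w : ι → Fin (2 * n) → Fin (2 * n) → ℝ} {p q : Fin (2 * n)}
  {bk : Fin (2 * n) → ℕ} {bl : ι → ℕ}

private theorem a3a_fst {s i : Fin n} (h : (fst s : Fin (2 * n)) = fst i) : s = i := by
  have := congrArg Fin.val h
  simp [fst] at this
  exact Fin.ext (by omega)

private theorem a3a_snd {s i : Fin n} (h : (snd s : Fin (2 * n)) = snd i) : s = i := by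
  have := congrArg Fin.val h
  simp [snd] at this
  exact Fin.ext (by omega)

private theorem a3a_ne {s i : Fin n} (h : (fst s : Fin (2 * n)) = snd i) : False := by
  have := congrArg Fin.val h
  simp [fst, snd] at this
  omega

private theorem a3a_avoid {p q : Fin (2 * n)} {i s : Fin n} (hs : s ≠ i) {σ : Perm (Fin (2 * n))}
    (hσ : (σ (fst i) = p ∧ σ (snd i) = q) ∨ (σ (fst i) = q ∧ σ (snd i) = p)) :
    σ (fst s) ≠ p ∧ σ (fst s) ≠ q ∧ σ (snd s) ≠ p ∧ σ (snd s) ≠ q := by
  have e1 : ∀ x, σ (fst i) = x → σ (fst s) ≠ x := fun x h1 h2 =>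
    hs (a3a_fst (σ.injective (h2.trans h1.symm)))
  have e2 : ∀ x, σ (snd i) = x → σ (fst s) ≠ x := fun x h1 h2 =>
    a3a_ne (σ.injective (h2.trans h1.symm))
  have e3 : ∀ x, σ (fst i) = x → σ (snd s) ≠ x := fun x h1 h2 =>
    a3a_ne (σ.injective (h1.trans h2.symm))
  have e4 : ∀ x, σ (snd i) = x → σ (snd s) ≠ x := fun x h1 h2 =>
    hs (a3a_snd (σ.injective (h2.trans h1.symm)))
  rcases hσ with ⟨h1, h2⟩ | ⟨h1, h2⟩
  · exact ⟨e1 _ h1, e2 _ h2, e3 _ h1, e4 _ h2⟩
  · exact ⟨e2 _ h2, e1 _ h1, e4 _ h2, e3 _ h1⟩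

/-- PROOF: a sum which is not zero has a term which is not zero: the factor of the slot `i` is `mm p q .. ≠ 0` (`mm_ne`),
and for `s ≠ i` the two values are different from `p, q` (injectivity of `σ`, `fst_inj`, `snd_inj`, `fst_ne_snd`), so the
factor `w (κ s) .. ` is the value of `rs p q (w (κ s))`. -/
theorem exists_perm (h : Blk w p q bk bl) {i : Fin n} {κ : Fin n → ι} (hne : hh w p q i κ ≠ 0) :
    ∃ σ : Perm (Fin (2 * n)), ((σ (fst i) = p ∧ σ (snd i) = q) ∨ (σ (fst i) = q ∧ σ (snd i) = p)) ∧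
      ∀ s, s ≠ i → rs p q (w (κ s)) (σ (fst s)) (σ (snd s)) ≠ 0 := by
  unfold hh mp at hne
  obtain ⟨σ, -, hσ⟩ := Finset.exists_ne_zero_of_sum_ne_zero hne
  have hprod := right_ne_zero_of_mul hσ
  rw [Finset.prod_ne_zero_iff] at hprod
  have hi := hprod i (mem_univ i)
  rw [Function.update_self] at hi
  have hpq := mm_ne hi
  refine ⟨σ, hpq, fun s hs => ?_⟩
  have h1 := hprod s (mem_univ s)
  rw [Function.update_of_ne hs] at h1
  obtain ⟨a1, a2, a3, a4⟩ := a3a_avoid hs hpq
  rw [rs_of _ a1 a2 a3 a4]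
  exact h1

/-- `h` only sees the restricted forms. PROOF: in a term with slot `i` not zero (`mm_ne`) the other values are not
`p, q`; otherwise both products are `0`. -/
theorem hh_rs (h : Blk w p q bk bl) (i : Fin n) (κ : Fin n → ι) :
    hh w p q i κ = mp (Function.update (fun s => rs p q (w (κ s))) i (mm p q)) := by
  unfold hh mp
  refine Finset.sum_congr rfl fun σ _ => ?_
  congr 1
  by_cases hi : mm p q (σ (fst i)) (σ (snd i)) = 0
  · rw [Finset.prod_eq_zero (mem_univ i) (by rw [Function.update_self]; exact hi),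
      Finset.prod_eq_zero (mem_univ i) (by rw [Function.update_self]; exact hi)]
  · refine Finset.prod_congr rfl fun s _ => ?_
    by_cases hs : s = i
    · subst hs
      rw [Function.update_self, Function.update_self]
    · rw [Function.update_of_ne hs, Function.update_of_ne hs]
      obtain ⟨a1, a2, a3, a4⟩ := a3a_avoid hs (mm_ne hi)
      rw [rs_of _ a1 a2 a3 a4]

/-- `h` does not depend on `κ i`. -/
theorem hh_update (w : ι → Fin (2 * n) → Fin (2 * n) → ℝ) (p q : Fin (2 * n)) (i : Fin n) (κ : Fin n → ι) (x : ι) :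
    hh w p q i (Function.update κ i x) = hh w p q i κ := by
  unfold hh
  congr 1
  funext s
  by_cases hs : s = i
  · subst hs
    rw [Function.update_self, Function.update_self]
  · rw [Function.update_of_ne hs, Function.update_of_ne hs, Function.update_of_ne hs]

end H7HB
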