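import Pool.Agent.Lib.H7HB.A3b
import Pool.Agent.Lib.H7HB.A1b

/-! # H7HB, chunk A3c: uniqueness and isolation -/

set_option autoImplicit false

namespace H7HB

open Finset Equiv Pool.Agent.H69Hopf

variable {n : ℕ} {ι : Type} {w : ι → Fin (2 * n) → Fin (2 * n) → ℝ} {p q : Fin (2 * n)}
  {bk : Fin (2 * n) → ℕ} {bl : ι → ℕ}

/-- UNIQUENESS. PROOF: otherwise `hh = 0` by `hh_rs` and `mp_pol` (the slots `s ≠ t` are not `i`). -/
theorem uni (h : Blk w p q bk bl) {i : Fin n} {κ : Fin n → ι} (hne : hh w p q i κ ≠ 0) {s t : Fin n} (hs : s ≠ i)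
    (ht : t ≠ i) (hb : bl (κ s) = bl (κ t)) : κ s = κ t := by
  by_contra hc
  apply hne
  rw [hh_rs h]
  have hst : s ≠ t := fun e => hc (by rw [e])
  have sk : ∀ x a b, rs p q (w x) a b = - rs p q (w x) b a := by
    intro x a b
    unfold rs
    by_cases h1 : a = p ∨ a = q ∨ b = p ∨ b = q
    · have h2 : b = p ∨ b = q ∨ a = p ∨ a = q := by tauto
      rw [if_pos h1, if_pos h2, neg_zero]
    · have h2 : ¬ (b = p ∨ b = q ∨ a = p ∨ a = q) := by tauto
      rw [if_neg h1, if_neg h2]
      exact h.skew x a b
  refine mp_pol _ hst ?_ ?_ ?_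
  · intro a b
    rw [Function.update_of_ne hs]
    exact sk _ a b
  · intro a b
    rw [Function.update_of_ne ht]
    exact sk _ a b
  · intro a b c d
    rw [Function.update_of_ne hs, Function.update_of_ne ht]
    exact h.pol _ _ hc hb a b c d

/-- ISOLATION. PROOF: suppose `hh w p q i (update κ s x) ≠ 0`. `card_block` for both and the number of slots of the block
`bl (κ s)` gives `bl x = bl (κ s) = j` (otherwise the number for `κ` is one more). The block has 2 or 4 elements (not 0:
`s` is counted). If 4, there is a second slot `t ≠ s, i` with `bl (κ t) = j`; `uni` for `κ`: `κ t = κ s`; `uni` for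
`update κ s x`: `κ t = x`; so `x = κ s`, contradiction. If 2: `one` gives `rs (w x) = 0` or `rs (w (κ s)) = 0`, against
`exists_perm` for `update κ s x` resp. `κ` at the slot `s`. -/
theorem iso (h : Blk w p q bk bl) {i : Fin n} {κ : Fin n → ι} (hne : hh w p q i κ ≠ 0) {s : Fin n} (hs : s ≠ i) {x : ι}
    (hx : x ≠ κ s) : hh w p q i (Function.update κ s x) = 0 := by
  by_contra hc
  have e1 : Function.update κ s x s = x := Function.update_self s x κ
  have c1 := card_block h hne (bl (κ s))
  have c2 := card_block h hc (bl (κ s))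
  have hmem : s ∈ univ.filter fun r => r ≠ i ∧ bl (κ r) = bl (κ s) := by
    simp [hs]
  have hblx : bl x = bl (κ s) := by
    by_contra hb
    have hsub : (univ.filter fun r => r ≠ i ∧ bl (Function.update κ s x r) = bl (κ s)) ⊂
        univ.filter fun r => r ≠ i ∧ bl (κ r) = bl (κ s) := by
      rw [Finset.ssubset_iff_of_subset]
      · refine ⟨s, hmem, ?_⟩
        intro hm
        have := (Finset.mem_filter.1 hm).2.2
        rw [e1] at this
        exact hb this
      · intro r hr
        obtain ⟨-, hr1, hr2⟩ := Finset.mem_filter.1 hr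
        have hrs : r ≠ s := by
          rintro rfl
          rw [e1] at hr2
          exact hb hr2
        rw [Function.update_of_ne hrs] at hr2
        exact Finset.mem_filter.2 ⟨Finset.mem_univ r, hr1, hr2⟩
    have := Finset.card_lt_card hsub
    omega
  have hpos : 0 < (univ.filter fun r => r ≠ i ∧ bl (κ r) = bl (κ s)).card := Finset.card_pos.2 ⟨s, hmem⟩
  rcases h.size (bl (κ s)) with h0 | h2 | h4
  · omega
  · obtain ⟨σ, -, hσ⟩ := exists_perm h hc
    obtain ⟨τ, -, hτ⟩ := exists_perm h hne
    have a1 := hσ s hs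
    have a2 := hτ s hs
    rw [e1] at a1
    rcases h.one x (κ s) hx hblx (by rw [hblx]; exact h2) with z | z
    · exact a1 (by rw [z]; rfl)
    · exact a2 (by rw [z]; rfl)
  · have hone : 1 < (univ.filter fun r => r ≠ i ∧ bl (κ r) = bl (κ s)).card := by omega
    obtain ⟨t, htm, hts⟩ := Finset.exists_mem_ne hone s
    obtain ⟨-, ht1, ht2⟩ := Finset.mem_filter.1 htm
    have u1 : κ t = κ s := uni h hne ht1 hs ht2
    have u2 : Function.update κ s x t = Function.update κ s x s := by
      refine uni h hc ht1 hs ?_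
      rw [Function.update_of_ne hts, e1, ht2, hblx]
    rw [Function.update_of_ne hts, e1] at u2
    exact hx (by rw [← u2, u1])

end H7HB
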