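import Pool.Agent.Lib.H7HB.D

/-! # H7HB, chunk A5a: expansion along p, q -/

set_option autoImplicit false

namespace H7HB

open Finset Equiv Pool.Agent.H69Hopf

variable {n : ℕ} {ι : Type} {w : ι → Fin (2 * n) → Fin (2 * n) → ℝ} {p q : Fin (2 * n)}
  {bk : Fin (2 * n) → ℕ} {bl : ι → ℕ}

private theorem a5a_upd (f : Fin n → Fin (2 * n) → Fin (2 * n) → ℝ) (g : Fin (2 * n) → Fin (2 * n) → ℝ) (s : Fin n)
    (σ : Perm (Fin (2 * n))) :
    ∏ i, Function.update f s g i (σ (fst i)) (σ (snd i)) =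
      g (σ (fst s)) (σ (snd s)) * ∏ i ∈ univ.erase s, f i (σ (fst i)) (σ (snd i)) := by
  rw [← mul_prod_erase univ _ (mem_univ s), Function.update_self]
  refine congrArg _ (prod_congr rfl fun i hi => ?_)
  rw [Function.update_of_ne (ne_of_mem_erase hi)]

private theorem a5a_pq {s t : Fin n} {σ : Perm (Fin (2 * n))}
    (hs : (σ (fst s) = p ∧ σ (snd s) = q) ∨ (σ (fst s) = q ∧ σ (snd s) = p))
    (ht : (σ (fst t) = p ∧ σ (snd t) = q) ∨ (σ (fst t) = q ∧ σ (snd t) = p)) : s = t := by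
  rcases hs with ⟨h1, h2⟩ | ⟨h1, h2⟩ <;> rcases ht with ⟨h3, h4⟩ | ⟨h3, h4⟩
  · exact fst_inj.1 (σ.injective (h1.trans h3.symm))
  · exact absurd (σ.injective (h1.trans h4.symm)) (fst_ne_snd s t)
  · exact absurd (σ.injective (h1.trans h4.symm)) (fst_ne_snd s t)
  · exact fst_inj.1 (σ.injective (h1.trans h3.symm))

/-- PROOF: for every `σ` both sides have the same term: `∏ f = Σ_s f s p q * ∏ (update f s (mm p q))`: if some slot `s`
has the values `{p, q}` (only one: injectivity), the right side has only the term of this `s` (`mm_ne`), and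
`f s (σ fst s) (σ snd s) = f s p q * mm p q (σ fst s) (σ snd s)` (skewness, `mm_pq`, `mm_skew`); if no slot has these
values, the left side is `0` by `H` and the right side by `mm_ne`. -/
theorem mp_expand (hpq : p ≠ q) (f : Fin n → Fin (2 * n) → Fin (2 * n) → ℝ) (hf : ∀ s i j, f s i j = - f s j i)
    (H : ∀ σ : Perm (Fin (2 * n)), ∏ s, f s (σ (fst s)) (σ (snd s)) ≠ 0 →
      ∃ s, (σ (fst s) = p ∧ σ (snd s) = q) ∨ (σ (fst s) = q ∧ σ (snd s) = p)) :
    mp f = ∑ s, f s p q * mp (Function.update f s (mm p q)) := by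
  unfold mp
  have h1 : ∀ s, f s p q * ∑ σ : Perm (Fin (2 * n)), ((Perm.sign σ : ℤ) : ℝ) *
      ∏ i, Function.update f s (mm p q) i (σ (fst i)) (σ (snd i)) =
      ∑ σ : Perm (Fin (2 * n)), ((Perm.sign σ : ℤ) : ℝ) *
        (f s p q * (mm p q (σ (fst s)) (σ (snd s)) * ∏ i ∈ univ.erase s, f i (σ (fst i)) (σ (snd i)))) := by
    intro s
    rw [mul_sum]
    refine sum_congr rfl fun σ _ => ?_
    rw [a5a_upd]
    ring
  rw [sum_congr rfl fun s _ => h1 s, sum_comm]
  refine sum_congr rfl fun σ _ => ?_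
  rw [← mul_sum]
  refine congrArg _ ?_
  by_cases hσ : ∃ s, (σ (fst s) = p ∧ σ (snd s) = q) ∨ (σ (fst s) = q ∧ σ (snd s) = p)
  · obtain ⟨s, hs⟩ := hσ
    rw [sum_eq_single s]
    · rw [← mul_prod_erase univ _ (mem_univ s), ← mul_assoc]
      refine congrArg (· * _) ?_
      rcases hs with ⟨h2, h3⟩ | ⟨h2, h3⟩
      · rw [h2, h3, mm_pq hpq, mul_one]
      · rw [h2, h3, mm_skew, mm_pq hpq, hf s q p]
        ring
    · intro t _ ht
      have h4 : mm p q (σ (fst t)) (σ (snd t)) = 0 := by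
        by_contra h5
        exact ht (a5a_pq (mm_ne h5) hs)
      rw [h4, zero_mul, mul_zero]
    · intro h
      exact absurd (mem_univ s) h
  · have h5 : ∏ s, f s (σ (fst s)) (σ (snd s)) = 0 := by
      by_contra h6
      exact hσ (H σ h6)
    rw [h5]
    symm
    refine sum_eq_zero fun t _ => ?_
    have h4 : mm p q (σ (fst t)) (σ (snd t)) = 0 := by
      by_contra h5
      exact hσ ⟨t, mm_ne h5⟩
    rw [h4, zero_mul, mul_zero]

end H7HB
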