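import Pool.Agent.Lib.H7HB.A4
import Pool.Agent.Lib.H7HB.A5a
import Pool.Agent.Lib.H7HB.A1a

/-! # H7HB, chunk A5b: the key identity -/

set_option autoImplicit false

namespace H7HB

open Finset Equiv Pool.Agent.H69Hopf

variable {n : ℕ} {ι : Type} {w : ι → Fin (2 * n) → Fin (2 * n) → ℝ} {p q : Fin (2 * n)}
  {bk : Fin (2 * n) → ℕ} {bl : ι → ℕ}

private theorem hh_slot_aux (w : ι → Fin (2 * n) → Fin (2 * n) → ℝ) (p q : Fin (2 * n)) {i s : Fin n} (hs : s ≠ i)
    (κ : Fin n → ι) : hh w p q s κ = hh w p q i (Function.update κ s (κ i)) := by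
  unfold hh
  rw [← mp_swap (Function.update (fun t => w (κ t)) s (mm p q)) s i]
  congr 1
  funext t
  by_cases h1 : t = i
  · subst h1
    rw [swap_apply_right, Function.update_self, Function.update_self]
  · by_cases h2 : t = s
    · subst h2
      rw [swap_apply_left, Function.update_of_ne (Ne.symm h1), Function.update_of_ne h1, Function.update_self]
    · rw [swap_apply_of_ne_of_ne h2 h1, Function.update_of_ne h2, Function.update_of_ne h1, Function.update_of_ne h2]

/-- PROOF: for `s = i` trivial. For `s ≠ i`: the family `update (w ∘ κ) s m` composed with `swap s i` is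
`update (w ∘ update κ s (κ i)) i m`, so `hh w p q s κ = hh w p q i (update κ s (κ i))` (`mp_swap`); if `κ s = κ i` this is
`hh w p q i κ` (`Function.update_eq_self`), otherwise it is `0` (`iso`). -/
theorem hh_slot [DecidableEq ι] (h : Blk w p q bk bl) {i : Fin n} {κ : Fin n → ι} (hne : hh w p q i κ ≠ 0) (s : Fin n) :
    hh w p q s κ = if κ s = κ i then hh w p q i κ else 0 := by
  by_cases hs : s = i
  · subst hs
    simp
  · rw [hh_slot_aux w p q hs κ]
    split_ifs with hk
    · rw [← hk, Function.update_eq_self]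
    · exact iso h hne hs (fun e => hk e.symm)

/-- THE KEY IDENTITY. PROOF: `mp_expand` with `f s = w (κ s)` and `slot_pq`, then `hh_slot`: the sum has
`#{s | κ s = κ i}` equal terms `w (κ i) p q * hh`. -/
theorem key [DecidableEq ι] (h : Blk w p q bk bl) {i : Fin n} {κ : Fin n → ι} (hne : hh w p q i κ ≠ 0)
    (hA : Ad w p q bk bl i κ) :
    mp (fun s => w (κ s)) = ((univ.filter fun s => κ s = κ i).card : ℝ) * w (κ i) p q * hh w p q i κ := by
  rw [mp_expand h.ne (fun s => w (κ s)) (fun s => h.skew (κ s)) (fun σ hσ => slot_pq h hne hA σ hσ)]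
  have e1 : ∀ s : Fin n, w (κ s) p q * mp (Function.update (fun s => w (κ s)) s (mm p q)) =
      if κ s = κ i then w (κ i) p q * hh w p q i κ else 0 := by
    intro s
    have e2 : mp (Function.update (fun s => w (κ s)) s (mm p q)) = hh w p q s κ := rfl
    rw [e2, hh_slot h hne s]
    split_ifs with hk
    · rw [hk]
    · ring
  rw [Finset.sum_congr rfl (fun s _ => e1 s), ← Finset.sum_filter, Finset.sum_const, nsmul_eq_mul]
  ring

end H7HB
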