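import Pool.Agent.Lib.H7HB.A3c
import Pool.Agent.Lib.H7HB.A2a

/-! # H7HB, chunk A6a: nondegeneracy -/

set_option autoImplicit false

namespace H7HB

open Finset Equiv Pool.Agent.H69Hopf

variable {n : ℕ} {ι : Type} {w : ι → Fin (2 * n) → Fin (2 * n) → ℝ} {p q : Fin (2 * n)}
  {bk : Fin (2 * n) → ℕ} {bl : ι → ℕ}

/-- PROOF: let `z` be supported on the block `j = bl (κ s)`, `z c₀ ≠ 0`. Let `E` be the identity matrix with the column `c₀`
replaced by `z` (`det E = z c₀ ≠ 0`). `f r = rs p q (w (κ r))` for `r ≠ i`, `f i = mm p q`: `mp f = hh` (`hh_rs`), and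
`mp (tr E ∘ f) = det E * mp f ≠ 0` (`mp_tr`). So some term is not zero: `c₀ = σ (fst r)` or `σ (snd r)`, and
`tr E (f r) c₀ d ≠ 0` for some `d`. `tr E (f r) c₀ d = Σ_a z a * (f r) (a, E_d)`. It is `0`: for `r = i` because `z` has
no `p, q` components; for `r ≠ i` with `bl (κ r) ≠ j` because `rs (w (κ r)) a _ = 0` for `a` in the block `j` (`supp`);
for `bl (κ r) = j`: `κ r = κ s` (`uni`), and `Σ_a z a * rs (w (κ s)) a b = 0` for every `b` (for `b` in the block by
hypothesis, otherwise by `supp`), hence for `E_d` too. Contradiction. -/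
theorem nondeg (h : Blk w p q bk bl) {i : Fin n} {κ : Fin n → ι} (hne : hh w p q i κ ≠ 0) {s : Fin n} (hs : s ≠ i)
    {z : Fin (2 * n) → ℝ} (hz : ∀ a, z a ≠ 0 → a ≠ p ∧ a ≠ q ∧ bk a = bl (κ s))
    (h0 : ∀ c, c ≠ p → c ≠ q → bk c = bl (κ s) → ∑ a, z a * w (κ s) a c = 0) : z = 0 := by
  by_contra hz0
  obtain ⟨c₀, hc₀⟩ : ∃ c, z c ≠ 0 := by
    by_contra hcon
    push Not at hcon
    exact hz0 (funext hcon)
  let E : Matrix (Fin (2 * n)) (Fin (2 * n)) ℝ := (1 : Matrix (Fin (2 * n)) (Fin (2 * n)) ℝ).updateCol c₀ z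
  have hE : E.det = z c₀ := by
    have h1 := Matrix.cramer_apply (1 : Matrix (Fin (2 * n)) (Fin (2 * n)) ℝ) z c₀
    rw [Matrix.cramer_one] at h1
    exact h1.symm
  have hEc : ∀ a, E a c₀ = z a := fun a => by simp [E]
  let f : Fin n → Fin (2 * n) → Fin (2 * n) → ℝ := Function.update (fun s => rs p q (w (κ s))) i (mm p q)
  have hf : mp f = hh w p q i κ := (hh_rs h i κ).symm
  have h1 : mp (fun r => tr E (f r)) ≠ 0 := by
    rw [mp_tr, hE, hf]
    exact mul_ne_zero hc₀ hne
  obtain ⟨σ, -, hσ⟩ := Finset.exists_ne_zero_of_sum_ne_zero h1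
  have hσ2 : ∀ r, tr E (f r) (σ (fst r)) (σ (snd r)) ≠ 0 := fun r =>
    (Finset.prod_ne_zero_iff.1 (right_ne_zero_of_mul hσ)) r (mem_univ r)
  -- the basic sum
  have key : ∀ r b, ∑ a, z a * f r a b = 0 := by
    intro r b
    by_cases hr : r = i
    · refine Finset.sum_eq_zero fun a _ => ?_
      by_cases hza : z a = 0
      · rw [hza, zero_mul]
      · have hfi : f r = mm p q := by
          rw [hr]
          exact Function.update_self _ _ _
        rw [hfi]
        by_contra hcon
        have h2 := mm_ne (right_ne_zero_of_mul hcon)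
        obtain ⟨h3, h4, -⟩ := hz a hza
        rcases h2 with ⟨h5, -⟩ | ⟨h5, -⟩
        · exact h3 h5
        · exact h4 h5
    · have hfr : f r = rs p q (w (κ r)) := Function.update_of_ne hr _ _
      rw [hfr]
      by_cases hb : bl (κ r) = bl (κ s)
      · have hκ := uni h hne hr hs hb
        rw [hκ]
        by_cases hbb : b ≠ p ∧ b ≠ q ∧ bk b = bl (κ s)
        · rw [← h0 b hbb.1 hbb.2.1 hbb.2.2]
          refine Finset.sum_congr rfl fun a _ => ?_
          by_cases hza : z a = 0
          · rw [hza, zero_mul, zero_mul]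
          · obtain ⟨h3, h4, -⟩ := hz a hza
            rw [rs_of _ h3 h4 hbb.1 hbb.2.1]
        · refine Finset.sum_eq_zero fun a _ => ?_
          by_contra hcon
          have h2 := right_ne_zero_of_mul hcon
          have h3 := rs_ne h2
          exact hbb ⟨h3.2.2.1, h3.2.2.2.1, (h.supp _ _ _ h2).2⟩
      · refine Finset.sum_eq_zero fun a _ => ?_
        by_contra hcon
        have h2 := right_ne_zero_of_mul hcon
        have h3 := (h.supp _ _ _ h2).1
        have h4 := (hz a (left_ne_zero_of_mul hcon)).2.2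
        exact hb (h3.symm.trans h4)
  have hskew : ∀ r a b, f r a b = - f r b a := by
    intro r a b
    by_cases hr : r = i
    · have hfi : f r = mm p q := by
        rw [hr]
        exact Function.update_self _ _ _
      rw [hfi]
      exact mm_skew p q a b
    · have hfr : f r = rs p q (w (κ r)) := Function.update_of_ne hr _ _
      rw [hfr]
      unfold rs
      by_cases hc : a = p ∨ a = q ∨ b = p ∨ b = q
      · have hc' : b = p ∨ b = q ∨ a = p ∨ a = q := by tauto
        rw [if_pos hc, if_pos hc', neg_zero]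
      · have hc' : ¬ (b = p ∨ b = q ∨ a = p ∨ a = q) := by tauto
        rw [if_neg hc, if_neg hc']
        exact h.skew _ _ _
  have t1 : ∀ r d, tr E (f r) c₀ d = 0 := by
    intro r d
    unfold tr
    rw [Finset.sum_comm]
    refine Finset.sum_eq_zero fun b _ => ?_
    have h2 : ∑ a, f r a b * E a c₀ * E b d = (∑ a, z a * f r a b) * E b d := by
      rw [Finset.sum_mul]
      refine Finset.sum_congr rfl fun a _ => ?_
      rw [hEc]
      ring
    rw [h2, key, zero_mul]
  have t2 : ∀ r d, tr E (f r) d c₀ = 0 := by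
    intro r d
    unfold tr
    refine Finset.sum_eq_zero fun a _ => ?_
    have h2 : ∑ b, f r a b * E a d * E b c₀ = -((∑ b, z b * f r b a) * E a d) := by
      rw [Finset.sum_mul, ← Finset.sum_neg_distrib]
      refine Finset.sum_congr rfl fun b _ => ?_
      rw [hEc, hskew r a b]
      ring
    rw [h2, key, zero_mul, neg_zero]
  obtain ⟨r, hr | hr⟩ := exists_fst_or_snd (σ.symm c₀)
  · apply hσ2 r
    rw [← hr, Equiv.apply_symm_apply]
    exact t1 r _
  · apply hσ2 r
    rw [← hr, Equiv.apply_symm_apply]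
    exact t2 r _

end H7HB
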