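import Pool.Agent.Lib.H7HB.A5b
import Pool.Agent.Lib.H7HB.A6b
import Pool.Agent.Lib.H7HB.A2b

/-! # H7HB, chunk A7a: the term inequality -/

set_option autoImplicit false

namespace H7HB

open Finset Equiv Pool.Agent.H69Hopf

variable {n : ℕ} {ι : Type} {w : ι → Fin (2 * n) → Fin (2 * n) → ℝ} {p q : Fin (2 * n)}
  {bk : Fin (2 * n) → ℕ} {bl : ι → ℕ}

/-- PROOF: `rs_tr`, `tr_skew`. -/
theorem blk_tr (h : Blk w p q bk bl) (u v : Fin (2 * n) → ℝ) :
    Blk (fun x => tr (EE p q u v) (w x)) p q bk bl where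
  ne := h.ne
  skew x i j := tr_skew (EE p q u v) (h.skew x) i j
  supp x i j hx := by
    rw [rs_tr] at hx
    exact h.supp x i j hx
  pol x y hxy hb a b c d := by
    simp only [rs_tr]
    exact h.pol x y hxy hb a b c d
  size := h.size
  one x y hxy hb hc := by
    simp only [rs_tr]
    exact h.one x y hxy hb hc

/-- THE TERM INEQUALITY. PROOF: `u`, `v` from `exists_vec` for `r = p`, `r = q`; `E = EE p q u v`, `w' x = tr E (w x)`:
`blk_tr`; `hh w' p q i κ' = hh w p q i κ'` and `mp (w' ∘ κ') = mp (w ∘ κ')` for all `κ'` (`mp_tr`, `det_EE`, `tr_mm`: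
`update (tr E ∘ w ∘ κ') i (mm p q) = tr E ∘ update (w ∘ κ') i (mm p q)`); `Ad w' p q bk bl i (update κ i x)` from `tr_pc`,
`tr_qc` (slots `s ≠ i` of `update κ i x` are those of `κ`). `key` for `update κ i x` (with `hh_update`): the term of `x`
on the right is `(w' x p q * hh) ^ 2` (the card is not zero), and `Σ_x (w' x p q) ^ 2 = Σ_x (vv (w x) ..) ^ 2 ≥
(vv (mm p q) ..) ^ 2 = 1` (`tr_pq`, `vv_mm`, `hK`). -/
theorem term_le [Fintype ι] [DecidableEq ι] (h : Blk w p q bk bl)
    (hK : ∀ x y, vv (mm p q) x y ^ 2 ≤ ∑ k, vv (w k) x y ^ 2) {i : Fin n} {κ : Fin n → ι} (hne : hh w p q i κ ≠ 0) :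
    hh w p q i κ ^ 2 ≤ ∑ x, (mp (fun s => w (Function.update κ i x s)) /
      ((univ.filter fun s => Function.update κ i x s = Function.update κ i x i).card : ℝ)) ^ 2 := by
  obtain ⟨u, hup, huq, hu⟩ := exists_vec h hne p
  obtain ⟨v, hvp, hvq, hv⟩ := exists_vec h hne q
  have hdet : (EE p q u v).det = 1 := det_EE h.ne hup huq hvp hvq
  have hB : Blk (fun x => tr (EE p q u v) (w x)) p q bk bl := blk_tr h u v
  have hmp : ∀ κ' : Fin n → ι, mp (fun s => tr (EE p q u v) (w (κ' s))) = mp (fun s => w (κ' s)) := by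
    intro κ'
    have h1 := mp_tr (EE p q u v) (fun s => w (κ' s))
    rw [hdet, one_mul] at h1
    exact h1
  have hhh : ∀ κ' : Fin n → ι, hh (fun x => tr (EE p q u v) (w x)) p q i κ' = hh w p q i κ' := by
    intro κ'
    have h1 := mp_tr (EE p q u v) (Function.update (fun s => w (κ' s)) i (mm p q))
    rw [hdet, one_mul] at h1
    unfold hh
    rw [← h1]
    have h2 : Function.update (fun s => tr (EE p q u v) (w (κ' s))) i (mm p q) =
        fun s => tr (EE p q u v) (Function.update (fun s => w (κ' s)) i (mm p q) s) := by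
      funext s
      by_cases hs : s = i
      · subst hs
        rw [Function.update_self, Function.update_self, tr_mm h.ne hup huq hvp hvq]
      · rw [Function.update_of_ne hs, Function.update_of_ne hs]
    rw [h2]
  have hterm : ∀ x : ι, (mp (fun s => w (Function.update κ i x s)) /
      ((univ.filter fun s => Function.update κ i x s = Function.update κ i x i).card : ℝ)) ^ 2 =
      hh w p q i κ ^ 2 * vv (w x) (Pi.single p 1 + u) (Pi.single q 1 + v) ^ 2 := by
    intro x
    have hnx : hh (fun x => tr (EE p q u v) (w x)) p q i (Function.update κ i x) ≠ 0 := by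
      rw [hh_update, hhh]
      exact hne
    have hAd : Ad (fun x => tr (EE p q u v) (w x)) p q bk bl i (Function.update κ i x) := by
      intro s hs c hcp hcq hc
      rw [Function.update_of_ne hs] at hc ⊢
      exact ⟨(tr_pc (w (κ s)) h.ne hcp hcq).trans (hu s hs c hcp hcq hc),
        (tr_qc (w (κ s)) h.ne hcp hcq).trans (hv s hs c hcp hcq hc)⟩
    have hk := key hB hnx hAd
    rw [hmp, hh_update, hhh] at hk
    have hc : ((univ.filter fun s => Function.update κ i x s = Function.update κ i x i).card : ℝ) ≠ 0 := by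
      have h1 : 0 < (univ.filter fun s => Function.update κ i x s = Function.update κ i x i).card :=
        Finset.card_pos.2 ⟨i, Finset.mem_filter.2 ⟨Finset.mem_univ _, rfl⟩⟩
      exact_mod_cast h1.ne'
    rw [hk]
    have h3 : tr (EE p q u v) (w (Function.update κ i x i)) p q =
        vv (w x) (Pi.single p 1 + u) (Pi.single q 1 + v) := by
      rw [Function.update_self]
      exact tr_pq h.ne huq hvp (w x)
    rw [h3]
    rw [mul_assoc, mul_div_cancel_left₀ _ hc]
    ring
  calc hh w p q i κ ^ 2 = hh w p q i κ ^ 2 * vv (mm p q) (Pi.single p 1 + u) (Pi.single q 1 + v) ^ 2 := by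
        rw [vv_mm h.ne hup huq hvp hvq]
        ring
    _ ≤ hh w p q i κ ^ 2 * ∑ k, vv (w k) (Pi.single p 1 + u) (Pi.single q 1 + v) ^ 2 :=
        mul_le_mul_of_nonneg_left (hK _ _) (sq_nonneg _)
    _ = ∑ x, (mp (fun s => w (Function.update κ i x s)) /
      ((univ.filter fun s => Function.update κ i x s = Function.update κ i x i).card : ℝ)) ^ 2 := by
        rw [Finset.mul_sum]
        exact (Finset.sum_congr rfl fun x _ => hterm x).symm

end H7HB
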