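import Pool.Agent.Lib.H7HB.M2x

/-! # H7HB, chunk M2a: some mp is not zero -/

set_option autoImplicit false

namespace H7HB

open Finset Equiv Pool.Agent.H69Hopf

/-- The linear combinations of the forms. -/
private noncomputable def om {N : ℕ} {ι : Type} [Fintype ι] (w : ι → Fin N → Fin N → ℝ) (t : ι → ℝ) :
    Fin N → Fin N → ℝ := fun i j => ∑ k, t k * w k i j

private theorem om_skew {N : ℕ} {ι : Type} [Fintype ι] {w : ι → Fin N → Fin N → ℝ} (hs : ∀ x i j, w x i j = - w x j i)
    (t : ι → ℝ) (i j : Fin N) : om w t i j = - om w t j i := by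
  unfold om
  rw [← Finset.sum_neg_distrib]
  refine Finset.sum_congr rfl fun k _ => ?_
  rw [hs k i j]
  ring

private theorem vv_om {N : ℕ} {ι : Type} [Fintype ι] (w : ι → Fin N → Fin N → ℝ) (t : ι → ℝ) (x y : Fin N → ℝ) :
    vv (om w t) x y = ∑ k, t k * vv (w k) x y := by
  calc vv (om w t) x y = ∑ i, ∑ j, ∑ k, t k * (w k i j * x i * y j) := by
        unfold vv om
        refine Finset.sum_congr rfl fun i _ => Finset.sum_congr rfl fun j _ => ?_
        rw [Finset.sum_mul, Finset.sum_mul]
        refine Finset.sum_congr rfl fun k _ => ?_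
        ring
    _ = ∑ i, ∑ k, ∑ j, t k * (w k i j * x i * y j) :=
        Finset.sum_congr rfl fun i _ => Finset.sum_comm
    _ = ∑ k, ∑ i, ∑ j, t k * (w k i j * x i * y j) := Finset.sum_comm
    _ = ∑ k, t k * vv (w k) x y := by
        refine Finset.sum_congr rfl fun k _ => ?_
        unfold vv
        rw [Finset.mul_sum]
        refine Finset.sum_congr rfl fun i _ => ?_
        rw [Finset.mul_sum]

private theorem vv_skew' {N : ℕ} {f : Fin N → Fin N → ℝ} (hf : ∀ i j, f i j = - f j i) (x y : Fin N → ℝ) :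
    vv f x y = - vv f y x := by
  unfold vv
  rw [Finset.sum_comm, ← Finset.sum_neg_distrib]
  refine Finset.sum_congr rfl fun i _ => ?_
  rw [← Finset.sum_neg_distrib]
  refine Finset.sum_congr rfl fun j _ => ?_
  rw [hf j i]
  ring

/-- `vv` as a bilinear map. -/
private noncomputable def bil' {N : ℕ} (f : Fin N → Fin N → ℝ) : (Fin N → ℝ) →ₗ[ℝ] (Fin N → ℝ) →ₗ[ℝ] ℝ :=
  LinearMap.mk₂ ℝ (vv f)
    (fun x x' y => by
      unfold vv
      rw [← Finset.sum_add_distrib]
      refine Finset.sum_congr rfl fun i _ => ?_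
      rw [← Finset.sum_add_distrib]
      refine Finset.sum_congr rfl fun j _ => ?_
      rw [Pi.add_apply]
      ring)
    (fun c x y => by
      unfold vv
      rw [smul_eq_mul, Finset.mul_sum]
      refine Finset.sum_congr rfl fun i _ => ?_
      rw [Finset.mul_sum]
      refine Finset.sum_congr rfl fun j _ => ?_
      rw [Pi.smul_apply, smul_eq_mul]
      ring)
    (fun x y y' => by
      unfold vv
      rw [← Finset.sum_add_distrib]
      refine Finset.sum_congr rfl fun i _ => ?_
      rw [← Finset.sum_add_distrib]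
      refine Finset.sum_congr rfl fun j _ => ?_
      rw [Pi.add_apply]
      ring)
    (fun c x y => by
      unfold vv
      rw [smul_eq_mul, Finset.mul_sum]
      refine Finset.sum_congr rfl fun i _ => ?_
      rw [Finset.mul_sum]
      refine Finset.sum_congr rfl fun j _ => ?_
      rw [Pi.smul_apply, smul_eq_mul]
      ring)

private theorem bil'_apply {N : ℕ} (f : Fin N → Fin N → ℝ) (x y : Fin N → ℝ) : bil' f x y = vv f x y := rfl

/-- The Gram matrix. -/
private noncomputable def gr {N : ℕ} {κ : Type} (f : Fin N → Fin N → ℝ) (u : κ → (Fin N → ℝ)) : Matrix κ κ ℝ :=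
  Matrix.of fun i j => vv f (u i) (u j)

/-- two independent vectors in the kernel of few linear conditions. -/
private theorem exists_pair {N m : ℕ} (h : m + 1 < N) (L : (Fin N → ℝ) →ₗ[ℝ] (Fin m → ℝ)) :
    ∃ z z' : Fin N → ℝ, L z = 0 ∧ L z' = 0 ∧ LinearIndependent ℝ ![z, z'] := by
  have h1 : LinearMap.ker L ≠ ⊥ := by
    apply LinearMap.ker_ne_bot_of_finrank_lt
    simp only [Module.finrank_fintype_fun_eq_card, Fintype.card_fin]
    omega
  obtain ⟨z, hz, hz0⟩ := Submodule.exists_mem_ne_zero_of_ne_bot h1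
  obtain ⟨c, hc⟩ : ∃ c, z c ≠ 0 := by
    by_contra hcon
    push Not at hcon
    exact hz0 (funext hcon)
  have h2 : LinearMap.ker (L.prod (LinearMap.proj c : (Fin N → ℝ) →ₗ[ℝ] ℝ)) ≠ ⊥ := by
    apply LinearMap.ker_ne_bot_of_finrank_lt
    rw [Module.finrank_prod]
    simp only [Module.finrank_fintype_fun_eq_card, Fintype.card_fin, Module.finrank_self]
    omega
  obtain ⟨z', hz', hz0'⟩ := Submodule.exists_mem_ne_zero_of_ne_bot h2
  have h3 : L z' = 0 := congrArg Prod.fst (LinearMap.mem_ker.1 hz')
  have h4 : z' c = 0 := congrArg Prod.snd (LinearMap.mem_ker.1 hz')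
  refine ⟨z, z', LinearMap.mem_ker.1 hz, h3, ?_⟩
  rw [LinearIndependent.pair_iff]
  intro s s' hss
  have h5 := congrFun hss c
  simp only [Pi.add_apply, Pi.smul_apply, smul_eq_mul, h4, mul_zero, add_zero, Pi.zero_apply] at h5
  have h6 : s = 0 := (mul_eq_zero.1 h5).resolve_right hc
  rw [h6, zero_smul, zero_add] at hss
  exact ⟨h6, (smul_eq_zero.1 hss).resolve_right hz0'⟩

private theorem det_J : (!![0, 1; -1, 0] : Matrix (Fin 2) (Fin 2) ℝ).det = 1 := by
  rw [Matrix.det_fin_two_of]
  norm_num

/-- the induction step. -/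
private theorem step {n : ℕ} {ι : Type} [Fintype ι] [DecidableEq ι] {w : ι → Fin (2 * n) → Fin (2 * n) → ℝ}
    (hs : ∀ x i j, w x i j = - w x j i)
    (hpos : ∀ x y : Fin (2 * n) → ℝ, LinearIndependent ℝ ![x, y] → 0 < ∑ k, vv (w k) x y ^ 2)
    {m : ℕ} (hm : m + 1 < 2 * n) (h : ∃ (t : ι → ℝ) (u : Fin m → (Fin (2 * n) → ℝ)), (gr (om w t) u).det ≠ 0) :
    ∃ (t : ι → ℝ) (u : Fin (m + 2) → (Fin (2 * n) → ℝ)), (gr (om w t) u).det ≠ 0 := by
  obtain ⟨t, u, hu⟩ := h
  obtain ⟨z, z', hz, hz', hli⟩ := exists_pair hm (LinearMap.pi fun i => bil' (om w t) (u i))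
  have hzu : ∀ i, vv (om w t) (u i) z = 0 := fun i => congrFun hz i
  have hzu' : ∀ i, vv (om w t) (u i) z' = 0 := fun i => congrFun hz' i
  -- it suffices to have the index type Fin m ⊕ Fin 2
  suffices H : ∃ (t' : ι → ℝ) (v : Fin m ⊕ Fin 2 → (Fin (2 * n) → ℝ)), (gr (om w t') v).det ≠ 0 by
    obtain ⟨t', v, hv⟩ := H
    refine ⟨t', fun i => v (finSumFinEquiv.symm i), ?_⟩
    have h1 : gr (om w t') (fun i => v (finSumFinEquiv.symm i)) =
        (gr (om w t') v).submatrix finSumFinEquiv.symm finSumFinEquiv.symm := rfl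
    rw [h1, Matrix.det_submatrix_equiv_self]
    exact hv
  let v : Fin m ⊕ Fin 2 → (Fin (2 * n) → ℝ) := Sum.elim u ![z, z']
  have hself : ∀ (f : Fin (2 * n) → Fin (2 * n) → ℝ), (∀ i j, f i j = - f j i) → ∀ x, vv f x x = 0 := by
    intro f hf x
    have := vv_skew' hf x x
    linarith
  by_cases hc : vv (om w t) z z' = 0
  · -- perturb
    obtain ⟨x, hx⟩ : ∃ x, vv (w x) z z' ≠ 0 := by
      by_contra hcon
      push Not at hcon
      have h1 := hpos z z' hli
      rw [Finset.sum_eq_zero (fun k _ => by rw [hcon k]; ring)] at h1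
      exact lt_irrefl _ h1
    set d := vv (w x) z z' with hd
    let Bm : Matrix (Fin m) (Fin 2) ℝ := Matrix.of fun i j => vv (w x) (u i) ((![z, z'] : Fin 2 → _) j)
    let Nf : ℝ → Matrix (Fin m ⊕ Fin 2) (Fin m ⊕ Fin 2) ℝ := fun ε =>
      Matrix.fromBlocks (gr (om w t) u + ε • gr (w x) u) (ε • Bm) (-Bm.transpose) (d • !![0, 1; -1, 0])
    have hN0 : (Nf 0).det ≠ 0 := by
      have h1 : Nf 0 = Matrix.fromBlocks (gr (om w t) u) 0 (-Bm.transpose) (d • !![0, 1; -1, 0]) := by
        simp only [Nf, zero_smul, add_zero]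
      rw [h1, Matrix.det_fromBlocks_zero₁₂, Matrix.det_smul, det_J]
      simp only [Fintype.card_fin, mul_one]
      exact mul_ne_zero hu (pow_ne_zero 2 hx)
    have hcont : Continuous fun ε => (Nf ε).det := by
      refine Continuous.matrix_det ?_
      simp only [Nf]
      refine Continuous.matrix_fromBlocks ?_ ?_ ?_ ?_
      · exact continuous_const.add (continuous_id.smul continuous_const)
      · exact continuous_id.smul continuous_const
      · exact continuous_const
      · exact continuous_const
    have hev : ∀ᶠ ε in nhdsWithin (0 : ℝ) {0}ᶜ, (Nf ε).det ≠ 0 :=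
      (hcont.continuousAt.eventually_ne hN0).filter_mono nhdsWithin_le_nhds
    obtain ⟨ε, hε, hε0⟩ := (hev.and self_mem_nhdsWithin).exists
    have hε0' : ε ≠ 0 := hε0
    refine ⟨t + ε • Pi.single x 1, v, ?_⟩
    have hval : ∀ a b, vv (om w (t + ε • Pi.single x 1)) a b = vv (om w t) a b + ε * vv (w x) a b := by
      intro a b
      rw [vv_om, vv_om]
      simp only [Pi.add_apply, Pi.smul_apply, smul_eq_mul, add_mul, Finset.sum_add_distrib]
      congr 1
      rw [Finset.sum_eq_single x]
      · simp
      · intro k _ hk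
        rw [Pi.single_eq_of_ne hk]
        ring
      · intro h
        exact absurd (mem_univ x) h
    have hM : gr (om w (t + ε • Pi.single x 1)) v =
        Matrix.fromBlocks (1 : Matrix (Fin m) (Fin m) ℝ) 0 0 (ε • (1 : Matrix (Fin 2) (Fin 2) ℝ)) * Nf ε := by
      simp only [Nf]
      rw [Matrix.fromBlocks_multiply]
      simp only [Matrix.one_mul, Matrix.zero_mul, add_zero, zero_add, Matrix.smul_mul]
      ext i j
      rcases i with i | i <;> rcases j with j | j
      · simp only [gr, Matrix.of_apply, v, Sum.elim_inl, Matrix.fromBlocks_apply₁₁, Matrix.add_apply, Matrix.smul_apply,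
          smul_eq_mul]
        exact hval _ _
      · simp only [gr, Matrix.of_apply, v, Sum.elim_inl, Sum.elim_inr, Matrix.fromBlocks_apply₁₂, Matrix.smul_apply,
          smul_eq_mul, Bm]
        rw [hval]
        fin_cases j
        · simp only [Fin.zero_eta, Fin.isValue, Matrix.cons_val_zero]
          rw [hzu i, zero_add]
        · simp only [Fin.mk_one, Fin.isValue, Matrix.cons_val_one, Matrix.cons_val_fin_one]
          rw [hzu' i, zero_add]
      · simp only [gr, Matrix.of_apply, v, Sum.elim_inl, Sum.elim_inr, Matrix.fromBlocks_apply₂₁, Matrix.smul_apply,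
          smul_eq_mul, Bm, Matrix.neg_apply, Matrix.transpose_apply]
        rw [hval, vv_skew' (om_skew hs t) _ (u j), vv_skew' (hs x) _ (u j)]
        fin_cases i
        · simp only [Fin.zero_eta, Fin.isValue, Matrix.cons_val_zero]
          rw [hzu j, neg_zero, zero_add]
        · simp only [Fin.mk_one, Fin.isValue, Matrix.cons_val_one, Matrix.cons_val_fin_one]
          rw [hzu' j, neg_zero, zero_add]
      · simp only [gr, Matrix.of_apply, v, Sum.elim_inr, Matrix.fromBlocks_apply₂₂, Matrix.smul_apply,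
          smul_eq_mul]
        rw [hval]
        fin_cases i <;> fin_cases j
        · simp [hself _ (om_skew hs t), hself _ (hs x)]
        · simp [hc, hd]
        · simp [vv_skew' (om_skew hs t) z' z, vv_skew' (hs x) z' z, hc, hd]
        · simp [hself _ (om_skew hs t), hself _ (hs x)]
    rw [hM, Matrix.det_mul, Matrix.det_fromBlocks_zero₁₂, Matrix.det_one, one_mul, Matrix.det_smul, Matrix.det_one]
    simp only [Fintype.card_fin, mul_one]
    exact mul_ne_zero (pow_ne_zero 2 hε0') hε
  · refine ⟨t, v, ?_⟩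
    have hM : gr (om w t) v = Matrix.fromBlocks (gr (om w t) u) 0 0 (vv (om w t) z z' • !![0, 1; -1, 0]) := by
      ext i j
      rcases i with i | i <;> rcases j with j | j
      · rfl
      · simp only [gr, Matrix.of_apply, v, Sum.elim_inl, Sum.elim_inr, Matrix.fromBlocks_apply₁₂, Matrix.zero_apply]
        fin_cases j
        · exact hzu i
        · exact hzu' i
      · simp only [gr, Matrix.of_apply, v, Sum.elim_inl, Sum.elim_inr, Matrix.fromBlocks_apply₂₁, Matrix.zero_apply]
        rw [vv_skew' (om_skew hs t) _ (u j)]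
        fin_cases i
        · simp only [Fin.zero_eta, Fin.isValue, Matrix.cons_val_zero]
          rw [hzu j, neg_zero]
        · simp only [Fin.mk_one, Fin.isValue, Matrix.cons_val_one, Matrix.cons_val_fin_one]
          rw [hzu' j, neg_zero]
      · simp only [gr, Matrix.of_apply, v, Sum.elim_inr, Matrix.fromBlocks_apply₂₂, Matrix.smul_apply, smul_eq_mul]
        fin_cases i <;> fin_cases j
        · simp [hself _ (om_skew hs t)]
        · simp
        · simp [vv_skew' (om_skew hs t) z' z]
        · simp [hself _ (om_skew hs t)]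
    rw [hM, Matrix.det_fromBlocks_zero₁₂, Matrix.det_smul, det_J]
    simp only [Fintype.card_fin, mul_one]
    exact mul_ne_zero hu (pow_ne_zero 2 hc)

/-- PROOF (no block structure): suppose all `mp (w ∘ κ) = 0`. For `t : ι → ℝ` let `ω_t = Σ t_x w_x`, a skew matrix; `mp (fun _ => ω_t) = 0` for all `t`
(multilinearity, `FE.mp_update_add`, `FE.mp_update_smul`, or directly expanding the product of sums), so `ω_t` is singular (a skew
nonsingular matrix of size `2 n` has `mp ≠ 0`: bring it to the standard form, or `det = (mp / (2 ^ n n!)) ^ 2`, see the library for Pfaffians;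
or argue with `card` of the rank). Choose `t` with maximal rank of `ω_t`; its kernel `Z` has dimension `≥ 2` (the rank of a skew matrix is even). For
`x` arbitrary and small `ε` the rank of `ω_t + ε w_x` is not larger, hence `w_x (z, z') = 0` for `z, z' ∈ Z` (second order expansion /
Schur complement: `det` of a maximal minor bordered by two vectors of `Z`). Then for independent `z, z' ∈ Z` `Σ_x w_x (z, z') ^ 2 = 0`, against `hpos`. -/
theorem exists_mp_ne {n : ℕ} {ι : Type} [Fintype ι] [DecidableEq ι] {w : ι → Fin (2 * n) → Fin (2 * n) → ℝ}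
    (hs : ∀ x i j, w x i j = - w x j i)
    (hpos : ∀ x y : Fin (2 * n) → ℝ, LinearIndependent ℝ ![x, y] → 0 < ∑ k, vv (w k) x y ^ 2) :
    ∃ κ : Fin n → ι, mp (fun s => w (κ s)) ≠ 0 := by
  have h1 : ∀ k : ℕ, k ≤ n → ∃ (t : ι → ℝ) (u : Fin (2 * k) → (Fin (2 * n) → ℝ)), (gr (om w t) u).det ≠ 0 := by
    intro k
    induction k with
    | zero =>
      intro _
      refine ⟨0, fun i => absurd i.2 (by omega), ?_⟩
      have : IsEmpty (Fin (2 * 0)) := by
        rw [mul_zero]
        infer_instance
      rw [Matrix.det_isEmpty]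
      exact one_ne_zero
    | succ k ih =>
      intro hk
      exact step (m := 2 * k) hs hpos (by omega) (ih (by omega))
  obtain ⟨t, u, hu⟩ := h1 n le_rfl
  -- the form om w t is nondegenerate
  have h2 : gr (om w t) u = (Matrix.of u) * (Matrix.of (om w t)) * (Matrix.of u).transpose := by
    ext i j
    simp only [gr, Matrix.of_apply, Matrix.mul_apply, Matrix.transpose_apply, vv]
    rw [Finset.sum_comm]
    refine Finset.sum_congr rfl fun b _ => ?_
    rw [Finset.sum_mul]
    refine Finset.sum_congr rfl fun a _ => ?_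
    ring
  have h3 : (Matrix.of (om w t)).det ≠ 0 := by
    intro h0
    rw [h2, Matrix.det_mul, Matrix.det_mul, h0] at hu
    exact hu (by ring)
  have h4 : mp (fun _ : Fin n => om w t) ≠ 0 := by
    refine mp_const_ne _ (om_skew hs t) fun x hx => ?_
    by_contra hcon
    push Not at hcon
    have h5 : Matrix.vecMul x (Matrix.of (om w t)) = 0 := by
      funext j
      have h6 := hcon (Pi.single j 1)
      have h7 : vv (om w t) x (Pi.single j 1) = Matrix.vecMul x (Matrix.of (om w t)) j := by
        simp only [vv, Matrix.vecMul, dotProduct, Matrix.of_apply]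
        refine Finset.sum_congr rfl fun i _ => ?_
        rw [Finset.sum_eq_single j]
        · rw [Pi.single_eq_same]
          ring
        · intro b _ hb
          rw [Pi.single_eq_of_ne hb, mul_zero]
        · intro h
          exact absurd (mem_univ j) h
      rw [← h7, h6]
      rfl
    exact hx (Matrix.eq_zero_of_vecMul_eq_zero h3 h5)
  by_contra hcon
  push Not at hcon
  apply h4
  have h5 : mp (fun _ : Fin n => om w t) = ∑ κ : Fin n → ι, (∏ s, t (κ s)) * mp (fun s => w (κ s)) := by
    unfold mp
    simp only [Finset.mul_sum]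
    rw [Finset.sum_comm]
    refine Finset.sum_congr rfl fun σ _ => ?_
    unfold om
    rw [Finset.prod_univ_sum, Fintype.piFinset_univ, Finset.mul_sum]
    refine Finset.sum_congr rfl fun κ _ => ?_
    rw [Finset.prod_mul_distrib]
    ring
  rw [h5]
  exact Finset.sum_eq_zero fun κ _ => by rw [hcon κ, mul_zero]

end H7HB
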