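import Pool.Agent.Lib.H7HB.D

/-! # H7HB, chunk M2a, first half: a nonsingular combination of the forms -/

set_option autoImplicit false

namespace H7HB

open Finset Matrix

/-- the Gram matrix -/
private noncomputable def gm {N : ℕ} {I : Type} (A : Fin N → Fin N → ℝ) (c : I → Fin N → ℝ) : Matrix I I ℝ :=
  Matrix.of fun i j => vv A (c i) (c j)

/-- a combination of the forms -/
private noncomputable def om {N : ℕ} {ι : Type} [Fintype ι] (w : ι → Fin N → Fin N → ℝ) (t : ι → ℝ) :
    Fin N → Fin N → ℝ := fun i j => ∑ x, t x * w x i j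

private theorem om_skew {N : ℕ} {ι : Type} [Fintype ι] {w : ι → Fin N → Fin N → ℝ}
    (hs : ∀ x i j, w x i j = - w x j i) (t : ι → ℝ) (i j : Fin N) : om w t i j = - om w t j i := by
  unfold om
  rw [← sum_neg_distrib]
  refine sum_congr rfl fun x _ => ?_
  rw [hs x i j]
  ring

private theorem vv_skew {N : ℕ} {f : Fin N → Fin N → ℝ} (hf : ∀ i j, f i j = - f j i) (x y : Fin N → ℝ) :
    vv f x y = - vv f y x := by
  unfold vv
  rw [sum_comm, ← sum_neg_distrib]
  refine sum_congr rfl fun i _ => ?_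
  rw [← sum_neg_distrib]
  refine sum_congr rfl fun j _ => ?_
  rw [hf j i]
  ring

private theorem vv_self {N : ℕ} {f : Fin N → Fin N → ℝ} (hf : ∀ i j, f i j = - f j i) (x : Fin N → ℝ) :
    vv f x x = 0 := by
  have := vv_skew hf x x
  linarith

private theorem vv_add_right {N : ℕ} (f : Fin N → Fin N → ℝ) (x y z : Fin N → ℝ) :
    vv f x (y + z) = vv f x y + vv f x z := by
  unfold vv
  rw [← sum_add_distrib]
  refine sum_congr rfl fun i _ => ?_
  rw [← sum_add_distrib]
  refine sum_congr rfl fun j _ => ?_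
  rw [Pi.add_apply]
  ring

private theorem vv_smul_right {N : ℕ} (f : Fin N → Fin N → ℝ) (r : ℝ) (x y : Fin N → ℝ) :
    vv f x (r • y) = r * vv f x y := by
  unfold vv
  rw [mul_sum]
  refine sum_congr rfl fun i _ => ?_
  rw [mul_sum]
  refine sum_congr rfl fun j _ => ?_
  rw [Pi.smul_apply, smul_eq_mul]
  ring

private theorem vv_smul_left {N : ℕ} (f : Fin N → Fin N → ℝ) (r : ℝ) (x y : Fin N → ℝ) :
    vv f (r • x) y = r * vv f x y := by
  unfold vv
  rw [mul_sum]
  refine sum_congr rfl fun i _ => ?_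
  rw [mul_sum]
  refine sum_congr rfl fun j _ => ?_
  rw [Pi.smul_apply, smul_eq_mul]
  ring

private theorem vv_om_add {N : ℕ} {ι : Type} [Fintype ι] [DecidableEq ι] (w : ι → Fin N → Fin N → ℝ)
    (t : ι → ℝ) (r : ℝ) (k : ι) (x y : Fin N → ℝ) :
    vv (om w (t + r • Pi.single k 1)) x y = vv (om w t) x y + r * vv (w k) x y := by
  have h : ∀ i j, om w (t + r • Pi.single k 1) i j = om w t i j + r * w k i j := by
    intro i j
    unfold om
    have h1 : ∀ z, (t + r • (Pi.single k 1 : ι → ℝ)) z * w z i j =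
        t z * w z i j + (if z = k then r * w k i j else 0) := by
      intro z
      by_cases hz : z = k
      · subst hz
        simp
        ring
      · simp [hz]
    simp only [h1]
    rw [sum_add_distrib, sum_ite_eq' univ k]
    simp
  unfold vv
  rw [mul_sum, ← sum_add_distrib]
  refine sum_congr rfl fun i _ => ?_
  rw [mul_sum, ← sum_add_distrib]
  refine sum_congr rfl fun j _ => ?_
  rw [h]
  ring

private theorem det_two {N : ℕ} {f : Fin N → Fin N → ℝ} (hf : ∀ i j, f i j = - f j i) (z z' : Fin N → ℝ) :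
    (Matrix.of fun a b : Fin 2 => vv f (![z, z'] a) (![z, z'] b)).det = vv f z z' ^ 2 := by
  rw [Matrix.det_fin_two]
  simp only [Matrix.of_apply, Matrix.cons_val_zero, Matrix.cons_val_one]
  rw [vv_self hf z, vv_self hf z', vv_skew hf z' z]
  ring

private theorem gram_step {N : ℕ} {ι : Type} [Fintype ι] [DecidableEq ι] {w : ι → Fin N → Fin N → ℝ}
    (hs : ∀ x i j, w x i j = - w x j i)
    (hpos : ∀ x y : Fin N → ℝ, LinearIndependent ℝ ![x, y] → 0 < ∑ k, vv (w k) x y ^ 2)
    (k : ℕ) (hk : 2 * k + 2 ≤ N) (I : Type) [Fintype I] [DecidableEq I] (hI : Fintype.card I = 2 * k)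
    (t : ι → ℝ) (c : I → Fin N → ℝ) (hdet : (gm (om w t) c).det ≠ 0) :
    ∃ (t' : ι → ℝ) (c' : I ⊕ Fin 2 → Fin N → ℝ), (gm (om w t') c').det ≠ 0 := by
  set A := om w t with hA
  have hAs : ∀ i j, A i j = - A j i := om_skew hs t
  set L : (Fin N → ℝ) →ₗ[ℝ] (I → ℝ) :=
    { toFun := fun z i => vv A (c i) z
      map_add' := fun x y => funext fun i => vv_add_right A (c i) x y
      map_smul' := fun r x => funext fun i => vv_smul_right A r (c i) x } with hL
  have hker : 1 < Module.finrank ℝ (LinearMap.ker L) := by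
    have h1 := LinearMap.finrank_range_add_finrank_ker L
    have h2 : Module.finrank ℝ (LinearMap.range L) ≤ 2 * k := by
      refine (Submodule.finrank_le _).trans ?_
      rw [Module.finrank_fintype_fun_eq_card, hI]
    rw [Module.finrank_fintype_fun_eq_card, Fintype.card_fin] at h1
    omega
  have : Nontrivial (LinearMap.ker L) := Module.nontrivial_of_finrank_pos (R := ℝ) (by omega)
  obtain ⟨z0, hz0⟩ := exists_ne (0 : LinearMap.ker L)
  obtain ⟨z1, hli⟩ := exists_linearIndependent_pair_of_one_lt_finrank hker hz0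
  set z : Fin N → ℝ := (z0 : Fin N → ℝ) with hz
  set z' : Fin N → ℝ := (z1 : Fin N → ℝ) with hz'
  have hli' : LinearIndependent ℝ ![z, z'] := by
    have h1 := hli.map' (LinearMap.ker L).subtype (Submodule.ker_subtype _)
    have h2 : (LinearMap.ker L).subtype ∘ ![z0, z1] = ![z, z'] := by
      funext a
      fin_cases a <;> rfl
    rwa [h2] at h1
  have hcz : ∀ i, vv A (c i) z = 0 := fun i => congrFun (LinearMap.mem_ker.1 z0.2) i
  have hcz' : ∀ i, vv A (c i) z' = 0 := fun i => congrFun (LinearMap.mem_ker.1 z1.2) i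
  have hcZ : ∀ i (a : Fin 2), vv A (c i) (![z, z'] a) = 0 := by
    intro i a
    fin_cases a
    · exact hcz i
    · exact hcz' i
  have hZc : ∀ i (a : Fin 2), vv A (![z, z'] a) (c i) = 0 := by
    intro i a
    rw [vv_skew hAs, hcZ, neg_zero]
  by_cases hα : vv A z z' = 0
  · have hZZ : ∀ a b : Fin 2, vv A (![z, z'] a) (![z, z'] b) = 0 := by
      intro a b
      fin_cases a <;> fin_cases b
      · exact vv_self hAs z
      · exact hα
      · show vv A z' z = 0
        rw [vv_skew hAs, hα, neg_zero]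
      · exact vv_self hAs z'
    have hsum := hpos z z' hli'
    obtain ⟨x, -, hx⟩ := exists_ne_zero_of_sum_ne_zero hsum.ne'
    have hx' : vv (w x) z z' ≠ 0 := fun h => hx (by rw [h]; ring)
    set F : ℝ → Matrix (I ⊕ Fin 2) (I ⊕ Fin 2) ℝ := fun δ => Matrix.of fun p q =>
      Sum.elim (fun i => Sum.elim (fun j => vv A (c i) (c j) + δ ^ 2 * vv (w x) (c i) (c j))
          (fun b => δ * vv (w x) (c i) (![z, z'] b)) q)
        (fun a => Sum.elim (fun j => δ * vv (w x) (![z, z'] a) (c j))
          (fun b => vv (w x) (![z, z'] a) (![z, z'] b)) q) p with hF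
    have hcont : Continuous fun δ => (F δ).det := by
      apply Continuous.matrix_det
      apply continuous_matrix
      rintro (i | a) (j | b)
      · simp only [hF, Matrix.of_apply, Sum.elim_inl]
        fun_prop
      · simp only [hF, Matrix.of_apply, Sum.elim_inl, Sum.elim_inr]
        fun_prop
      · simp only [hF, Matrix.of_apply, Sum.elim_inl, Sum.elim_inr]
        fun_prop
      · simp only [hF, Matrix.of_apply, Sum.elim_inr]
        fun_prop
    have hF0 : F 0 = Matrix.fromBlocks (gm A c) 0 0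
        (Matrix.of fun a b : Fin 2 => vv (w x) (![z, z'] a) (![z, z'] b)) := by
      ext p q
      rcases p with i | a <;> rcases q with j | b
      · simp [hF, gm]
      · simp [hF]
      · simp [hF]
      · simp [hF]
    have hF0det : (F 0).det ≠ 0 := by
      rw [hF0, Matrix.det_fromBlocks_zero₂₁, det_two (hs x)]
      exact mul_ne_zero hdet (pow_ne_zero _ hx')
    have hev : ∀ᶠ δ in nhdsWithin (0 : ℝ) {0}ᶜ, (F δ).det ≠ 0 :=
      (hcont.continuousAt.eventually_ne hF0det).filter_mono nhdsWithin_le_nhds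
    obtain ⟨δ, hδ, hδ0⟩ := (hev.and self_mem_nhdsWithin).exists
    have hδ0' : δ ≠ 0 := hδ0
    refine ⟨t + (δ ^ 2) • Pi.single x 1, Sum.elim c fun a => δ⁻¹ • ![z, z'] a, ?_⟩
    have hgm : gm (om w (t + (δ ^ 2) • Pi.single x 1)) (Sum.elim c fun a => δ⁻¹ • ![z, z'] a) = F δ := by
      ext p q
      rcases p with i | a <;> rcases q with j | b
      · simp only [gm, hF, Matrix.of_apply, Sum.elim_inl]
        rw [vv_om_add]
      · simp only [gm, hF, Matrix.of_apply, Sum.elim_inl, Sum.elim_inr]
        rw [vv_om_add, vv_smul_right, vv_smul_right, ← hA, hcZ]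
        field_simp
        ring
      · simp only [gm, hF, Matrix.of_apply, Sum.elim_inl, Sum.elim_inr]
        rw [vv_om_add, vv_smul_left, vv_smul_left, ← hA, hZc]
        field_simp
        ring
      · simp only [gm, hF, Matrix.of_apply, Sum.elim_inr]
        rw [vv_om_add, vv_smul_left, vv_smul_left, vv_smul_right, vv_smul_right, ← hA, hZZ]
        field_simp
        ring
    rw [hgm]
    exact hδ
  · refine ⟨t, Sum.elim c ![z, z'], ?_⟩
    have hgm : gm (om w t) (Sum.elim c ![z, z']) = Matrix.fromBlocks (gm A c) 0 0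
        (Matrix.of fun a b : Fin 2 => vv A (![z, z'] a) (![z, z'] b)) := by
      ext p q
      rcases p with i | a <;> rcases q with j | b
      · simp [gm, hA]
      · simp only [gm, Matrix.of_apply, Sum.elim_inl, Sum.elim_inr, Matrix.fromBlocks_apply₁₂,
          Matrix.zero_apply]
        exact hcZ i b
      · simp only [gm, Matrix.of_apply, Sum.elim_inl, Sum.elim_inr, Matrix.fromBlocks_apply₂₁,
          Matrix.zero_apply]
        exact hZc j a
      · simp [gm, hA]
    rw [hgm, Matrix.det_fromBlocks_zero₂₁, det_two hAs]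
    exact mul_ne_zero hdet (pow_ne_zero _ hα)

private theorem gram_exists {N : ℕ} {ι : Type} [Fintype ι] [DecidableEq ι] {w : ι → Fin N → Fin N → ℝ}
    (hs : ∀ x i j, w x i j = - w x j i)
    (hpos : ∀ x y : Fin N → ℝ, LinearIndependent ℝ ![x, y] → 0 < ∑ k, vv (w k) x y ^ 2)
    (k : ℕ) (hk : 2 * k ≤ N) : ∃ (I : Type) (_ : Fintype I) (_ : DecidableEq I),
      Fintype.card I = 2 * k ∧ ∃ (t : ι → ℝ) (c : I → Fin N → ℝ), (gm (om w t) c).det ≠ 0 := by
  induction k with
  | zero =>
    refine ⟨Fin 0, inferInstance, inferInstance, rfl, 0, fun _ => 0, ?_⟩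
    rw [Matrix.det_isEmpty]
    exact one_ne_zero
  | succ k ih =>
    obtain ⟨I, hI1, hI2, hI, t, c, hdet⟩ := ih (by omega)
    obtain ⟨t', c', h⟩ := gram_step hs hpos k (by omega) I hI t c hdet
    refine ⟨I ⊕ Fin 2, inferInstance, inferInstance, ?_, t', c', h⟩
    rw [Fintype.card_sum, hI, Fintype.card_fin]
    ring

/-- Some combination of the forms is nonsingular. -/
theorem exists_det_ne {n : ℕ} {ι : Type} [Fintype ι] [DecidableEq ι] {w : ι → Fin (2 * n) → Fin (2 * n) → ℝ}
    (hs : ∀ x i j, w x i j = - w x j i)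
    (hpos : ∀ x y : Fin (2 * n) → ℝ, LinearIndependent ℝ ![x, y] → 0 < ∑ k, vv (w k) x y ^ 2) :
    ∃ t : ι → ℝ, (Matrix.of fun i j => ∑ x, t x * w x i j).det ≠ 0 := by
  obtain ⟨I, hI1, hI2, hI, t, c, hdet⟩ := gram_exists hs hpos n le_rfl
  refine ⟨t, ?_⟩
  have hcard : Fintype.card I = Fintype.card (Fin (2 * n)) := by rw [hI, Fintype.card_fin]
  set e : I ≃ Fin (2 * n) := Fintype.equivOfCardEq hcard with he
  set C : Matrix (Fin (2 * n)) (Fin (2 * n)) ℝ := Matrix.of fun a i => c (e.symm a) i with hC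
  have h1 : (gm (om w t) c).submatrix e.symm e.symm = C * (Matrix.of (om w t)) * C.transpose := by
    ext a b
    simp only [Matrix.submatrix_apply, gm, Matrix.of_apply, Matrix.mul_apply, Matrix.transpose_apply,
      hC, vv]
    rw [sum_comm]
    refine sum_congr rfl fun j _ => ?_
    rw [sum_mul]
    refine sum_congr rfl fun i _ => ?_
    ring
  have h2 : ((gm (om w t) c).submatrix e.symm e.symm).det ≠ 0 := by
    rw [Matrix.det_submatrix_equiv_self]
    exact hdet
  rw [h1, Matrix.det_mul, Matrix.det_mul] at h2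
  intro h0
  apply h2
  have h3 : (Matrix.of (om w t)).det = 0 := h0
  rw [h3]
  ring

end H7HB
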