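import Pool.Agent.Lib.H7HB.A2a
import Pool.Agent.Lib.H14D.FE

/-! # H7HB, file M2x: the Pfaffian of a nondegenerate skew matrix is not zero (helper75) -/

set_option autoImplicit false

namespace H7HB

open Finset Equiv Pool.Agent.H69Hopf

/-- The standard symplectic form. -/
noncomputable def J0 (n : ℕ) : Fin (2 * n) → Fin (2 * n) → ℝ := fun r s =>
  if (r : ℕ) / 2 = (s : ℕ) / 2 then (if r < s then 1 else if s < r then -1 else 0) else 0

private theorem fst_div {n : ℕ} (i : Fin n) : ((fst i : Fin (2 * n)) : ℕ) / 2 = i := by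
  simp only [fst]
  omega

private theorem snd_div {n : ℕ} (i : Fin n) : ((snd i : Fin (2 * n)) : ℕ) / 2 = i := by
  simp only [snd]
  omega

private theorem fst_lt_snd {n : ℕ} (i : Fin n) : (fst i : Fin (2 * n)) < snd i := by
  rw [Fin.lt_def]
  simp only [fst, snd]
  omega

private theorem J0_fs {n : ℕ} (i : Fin n) : J0 n (fst i) (snd i) = 1 := by
  unfold J0
  rw [fst_div, snd_div, if_pos rfl, if_pos (fst_lt_snd i)]

private theorem J0_sf {n : ℕ} (i : Fin n) : J0 n (snd i) (fst i) = -1 := by
  unfold J0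
  rw [fst_div, snd_div, if_pos rfl, if_neg (fst_lt_snd i).le.not_gt, if_pos (fst_lt_snd i)]

private theorem J0_ne {n : ℕ} {r s : Fin (2 * n)} (h : J0 n r s ≠ 0) :
    ∃ i : Fin n, (r = fst i ∧ s = snd i) ∨ (r = snd i ∧ s = fst i) := by
  obtain ⟨i, hi⟩ := exists_fst_or_snd r
  obtain ⟨j, hj⟩ := exists_fst_or_snd s
  have h1 : (r : ℕ) / 2 = (s : ℕ) / 2 := by
    by_contra hc
    apply h
    unfold J0
    rw [if_neg hc]
  have hij : i = j := by
    have h2 : (r : ℕ) / 2 = i := by
      rcases hi with rfl | rfl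
      · exact fst_div i
      · exact snd_div i
    have h3 : (s : ℕ) / 2 = j := by
      rcases hj with rfl | rfl
      · exact fst_div j
      · exact snd_div j
    exact Fin.ext (h2.symm.trans (h1.trans h3))
  subst hij
  refine ⟨i, ?_⟩
  rcases hi with rfl | rfl <;> rcases hj with rfl | rfl
  · exfalso
    apply h
    unfold J0
    simp
  · exact Or.inl ⟨rfl, rfl⟩
  · exact Or.inr ⟨rfl, rfl⟩
  · exfalso
    apply h
    unfold J0
    simp

/-- the permutation exchanging the two elements of the pairs with `c i = true`. -/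
private noncomputable def flip {n : ℕ} (c : Fin n → Bool) : Perm (Fin (2 * n)) :=
  (Pool.Agent.Lib.H14D.FE.pos' n).symm.trans
    ((Equiv.prodCongrRight (fun i => if c i then swap false true else (1 : Perm Bool))).trans
      (Pool.Agent.Lib.H14D.FE.pos' n))

private theorem sign_flip {n : ℕ} (c : Fin n → Bool) :
    ((Perm.sign (flip c) : ℤ) : ℝ) = ∏ i, (if c i then (-1 : ℝ) else 1) := by
  have h : flip c = ((Pool.Agent.Lib.H14D.FE.pos' n).symm.trans
    (Equiv.prodCongrRight (fun i => if c i then swap false true else (1 : Perm Bool)))).trans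
      (Pool.Agent.Lib.H14D.FE.pos' n) := rfl
  rw [h, Perm.sign_symm_trans_trans, Perm.sign_prodCongrRight]
  push_cast
  refine Finset.prod_congr rfl fun i _ => ?_
  by_cases hc : c i = true
  · rw [if_pos hc, if_pos hc, Perm.sign_swap (by decide)]
    simp
  · rw [if_neg hc, if_neg hc]
    simp

private theorem flip_fst {n : ℕ} (c : Fin n → Bool) (i : Fin n) :
    flip c (fst i) = if c i then snd i else fst i := by
  rw [← Pool.Agent.Lib.H14D.FE.pos_false' i]
  unfold flip
  rw [Equiv.trans_apply, Equiv.symm_apply_apply, Equiv.trans_apply, Equiv.prodCongrRight_apply]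
  by_cases hc : c i = true
  · rw [if_pos hc, if_pos hc]
    simp only [swap_apply_left]
    exact Pool.Agent.Lib.H14D.FE.pos_true' i
  · rw [if_neg hc, if_neg hc]
    rfl

private theorem flip_snd {n : ℕ} (c : Fin n → Bool) (i : Fin n) :
    flip c (snd i) = if c i then fst i else snd i := by
  rw [← Pool.Agent.Lib.H14D.FE.pos_true' i]
  unfold flip
  rw [Equiv.trans_apply, Equiv.symm_apply_apply, Equiv.trans_apply, Equiv.prodCongrRight_apply]
  by_cases hc : c i = true
  · rw [if_pos hc, if_pos hc]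
    simp only [swap_apply_right]
    exact Pool.Agent.Lib.H14D.FE.pos_false' i
  · rw [if_neg hc, if_neg hc]
    rfl

private theorem term_one {n : ℕ} (σ : Perm (Fin (2 * n)))
    (hσ : ∀ i, J0 n (σ (fst i)) (σ (snd i)) ≠ 0) :
    ((Perm.sign σ : ℤ) : ℝ) * ∏ i, J0 n (σ (fst i)) (σ (snd i)) = 1 := by
  choose π hπ using fun i => J0_ne (hσ i)
  have hinj : Function.Injective π := by
    intro i j hij
    have inj : ∀ {x y : Fin (2 * n)}, σ x = σ y → x = y := fun hxy => σ.injective hxy
    have hi := hπ i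
    have hj := hπ j
    rw [hij] at hi
    rcases hi with ⟨h1, h2⟩ | ⟨h1, h2⟩ <;> rcases hj with ⟨h3, h4⟩ | ⟨h3, h4⟩
    · exact fst_inj.1 (inj (h1.trans h3.symm))
    · exact absurd (inj (h1.trans h4.symm)) (fst_ne_snd i j)
    · exact absurd (inj (h3.trans h2.symm)) (fst_ne_snd j i)
    · exact fst_inj.1 (inj (h1.trans h3.symm))
  let P : Perm (Fin n) := Equiv.ofBijective π (Finite.injective_iff_bijective.1 hinj)
  let c : Fin n → Bool := fun i => decide (σ (fst i) = snd (π i))
  have hc : ∀ i, (c i = true → σ (fst i) = snd (π i) ∧ σ (snd i) = fst (π i)) ∧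
      (¬ c i = true → σ (fst i) = fst (π i) ∧ σ (snd i) = snd (π i)) := by
    intro i
    refine ⟨fun h => ?_, fun h => ?_⟩
    · have h1 : σ (fst i) = snd (π i) := of_decide_eq_true h
      rcases hπ i with ⟨h2, h3⟩ | ⟨h2, h3⟩
      · exact absurd (h2.symm.trans h1) (fst_ne_snd _ _)
      · exact ⟨h2, h3⟩
    · have h1 : ¬ σ (fst i) = snd (π i) := fun e => h (decide_eq_true e)
      rcases hπ i with ⟨h2, h3⟩ | ⟨h2, h3⟩
      · exact ⟨h2, h3⟩
      · exact absurd h2 h1
  have hs : σ = Pool.Agent.Lib.H14D.FE.lift P * flip c := by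
    ext1 x
    rw [Perm.mul_apply]
    obtain ⟨i, rfl | rfl⟩ := exists_fst_or_snd x
    · rw [flip_fst]
      by_cases h : c i = true
      · rw [if_pos h, Pool.Agent.Lib.H14D.FE.lift_snd, ((hc i).1 h).1]
        rfl
      · rw [if_neg h, Pool.Agent.Lib.H14D.FE.lift_fst, ((hc i).2 h).1]
        rfl
    · rw [flip_snd]
      by_cases h : c i = true
      · rw [if_pos h, Pool.Agent.Lib.H14D.FE.lift_fst, ((hc i).1 h).2]
        rfl
      · rw [if_neg h, Pool.Agent.Lib.H14D.FE.lift_snd, ((hc i).2 h).2]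
        rfl
  have hsg : ((Perm.sign σ : ℤ) : ℝ) = ∏ i, (if c i then (-1 : ℝ) else 1) := by
    rw [← sign_flip c]
    conv_lhs => rw [hs, Perm.sign_mul, Pool.Agent.Lib.H14D.FE.sign_lift, one_mul]
  have hJ : ∏ i, J0 n (σ (fst i)) (σ (snd i)) = ∏ i, (if c i then (-1 : ℝ) else 1) := by
    refine Finset.prod_congr rfl fun i _ => ?_
    by_cases h : c i = true
    · rw [if_pos h, ((hc i).1 h).1, ((hc i).1 h).2, J0_sf]
    · rw [if_neg h, ((hc i).2 h).1, ((hc i).2 h).2, J0_fs]
  rw [hsg, hJ, ← Finset.prod_mul_distrib]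
  refine Finset.prod_eq_one fun i _ => ?_
  by_cases h : c i = true
  · rw [if_pos h]
    norm_num
  · rw [if_neg h]
    norm_num

theorem mp_J0 (n : ℕ) : 0 < mp (fun _ : Fin n => J0 n) := by
  unfold mp
  have h : ∀ σ : Perm (Fin (2 * n)), 0 ≤ ((Perm.sign σ : ℤ) : ℝ) * ∏ i, J0 n (σ (fst i)) (σ (snd i)) := by
    intro σ
    by_cases hσ : ∀ i, J0 n (σ (fst i)) (σ (snd i)) ≠ 0
    · rw [term_one σ hσ]
      exact zero_le_one
    · push Not at hσ
      obtain ⟨i, hi⟩ := hσ
      rw [Finset.prod_eq_zero (mem_univ i) hi, mul_zero]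
  refine Finset.sum_pos' (fun σ _ => h σ) ⟨1, mem_univ _, ?_⟩
  rw [term_one 1 (fun i => ?_)]
  · exact one_pos
  · rw [Perm.one_apply, Perm.one_apply, J0_fs]
    exact one_ne_zero

/-- bilinearity of `vv`. -/
private theorem vv_add1 {N : ℕ} (f : Fin N → Fin N → ℝ) (x x' y : Fin N → ℝ) :
    vv f (x + x') y = vv f x y + vv f x' y := by
  unfold vv
  rw [← Finset.sum_add_distrib]
  refine Finset.sum_congr rfl fun i _ => ?_
  rw [← Finset.sum_add_distrib]
  refine Finset.sum_congr rfl fun j _ => ?_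
  rw [Pi.add_apply]
  ring

private theorem vv_add2 {N : ℕ} (f : Fin N → Fin N → ℝ) (x y y' : Fin N → ℝ) :
    vv f x (y + y') = vv f x y + vv f x y' := by
  unfold vv
  rw [← Finset.sum_add_distrib]
  refine Finset.sum_congr rfl fun i _ => ?_
  rw [← Finset.sum_add_distrib]
  refine Finset.sum_congr rfl fun j _ => ?_
  rw [Pi.add_apply]
  ring

private theorem vv_smul1 {N : ℕ} (f : Fin N → Fin N → ℝ) (c : ℝ) (x y : Fin N → ℝ) :
    vv f (c • x) y = c * vv f x y := by
  unfold vv
  rw [Finset.mul_sum]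
  refine Finset.sum_congr rfl fun i _ => ?_
  rw [Finset.mul_sum]
  refine Finset.sum_congr rfl fun j _ => ?_
  rw [Pi.smul_apply, smul_eq_mul]
  ring

private theorem vv_smul2 {N : ℕ} (f : Fin N → Fin N → ℝ) (c : ℝ) (x y : Fin N → ℝ) :
    vv f x (c • y) = c * vv f x y := by
  unfold vv
  rw [Finset.mul_sum]
  refine Finset.sum_congr rfl fun i _ => ?_
  rw [Finset.mul_sum]
  refine Finset.sum_congr rfl fun j _ => ?_
  rw [Pi.smul_apply, smul_eq_mul]
  ring

private theorem vv_skew {N : ℕ} {f : Fin N → Fin N → ℝ} (hf : ∀ i j, f i j = - f j i) (x y : Fin N → ℝ) :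
    vv f x y = - vv f y x := by
  unfold vv
  rw [Finset.sum_comm, ← Finset.sum_neg_distrib]
  refine Finset.sum_congr rfl fun i _ => ?_
  rw [← Finset.sum_neg_distrib]
  refine Finset.sum_congr rfl fun j _ => ?_
  rw [hf j i]
  ring

/-- `vv` as a bilinear map. -/
private noncomputable def bil {N : ℕ} (f : Fin N → Fin N → ℝ) : (Fin N → ℝ) →ₗ[ℝ] (Fin N → ℝ) →ₗ[ℝ] ℝ :=
  LinearMap.mk₂ ℝ (vv f) (vv_add1 f) (fun c x y => by rw [vv_smul1, smul_eq_mul]) (vv_add2 f)
    (fun c x y => by rw [vv_smul2, smul_eq_mul])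

private theorem bil_apply {N : ℕ} (f : Fin N → Fin N → ℝ) (x y : Fin N → ℝ) : bil f x y = vv f x y := rfl

/-- partial symplectic bases. -/
private theorem exists_symp {n : ℕ} {A : Fin (2 * n) → Fin (2 * n) → ℝ} (hA : ∀ i j, A i j = - A j i)
    (hnd : ∀ x : Fin (2 * n) → ℝ, x ≠ 0 → ∃ y, vv A x y ≠ 0) (k : ℕ) (hk : k ≤ n) :
    ∃ a b : ℕ → (Fin (2 * n) → ℝ), ∀ i < k, ∀ j < k, vv A (a i) (b j) = (if i = j then 1 else 0) ∧
      vv A (a i) (a j) = 0 ∧ vv A (b i) (b j) = 0 := by
  induction k with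
  | zero => exact ⟨fun _ => 0, fun _ => 0, fun i hi => absurd hi (Nat.not_lt_zero i)⟩
  | succ k ih =>
    obtain ⟨a, b, h⟩ := ih (by omega)
    -- a vector orthogonal to all a i, b i
    let L : (Fin (2 * n) → ℝ) →ₗ[ℝ] (Fin k × Bool → ℝ) :=
      LinearMap.pi fun r => bil A (if r.2 then b r.1 else a r.1)
    have hker : LinearMap.ker L ≠ ⊥ := by
      apply LinearMap.ker_ne_bot_of_finrank_lt
      simp only [Module.finrank_fintype_fun_eq_card, Fintype.card_prod, Fintype.card_fin, Fintype.card_bool]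
      omega
    obtain ⟨x, hxk, hx0⟩ := Submodule.exists_mem_ne_zero_of_ne_bot hker
    have hxa : ∀ i < k, vv A (a i) x = 0 := by
      intro i hi
      have h1 := congrFun (LinearMap.mem_ker.1 hxk) (⟨i, hi⟩, false)
      simpa [L, bil_apply] using h1
    have hxb : ∀ i < k, vv A (b i) x = 0 := by
      intro i hi
      have h1 := congrFun (LinearMap.mem_ker.1 hxk) (⟨i, hi⟩, true)
      simpa [L, bil_apply] using h1
    obtain ⟨y, hy⟩ := hnd x hx0
    -- the projection of y
    let y' : Fin (2 * n) → ℝ := y - ∑ j ∈ Finset.range k, (vv A (a j) y • b j - vv A (b j) y • a j)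
    have hv : ∀ z, vv A z y' = vv A z y - ∑ j ∈ Finset.range k, (vv A (a j) y * vv A z (b j) - vv A (b j) y * vv A z (a j)) := by
      intro z
      have h1 : vv A z y' = bil A z y' := rfl
      rw [h1]
      simp only [y', map_sub, map_sum, map_smul, smul_eq_mul, bil_apply]
    have hya : ∀ i < k, vv A (a i) y' = 0 := by
      intro i hi
      rw [hv, Finset.sum_eq_single i]
      · rw [(h i hi i hi).1, (h i hi i hi).2.1, if_pos rfl]
        ring
      · intro j hj hji
        rw [Finset.mem_range] at hj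
        rw [(h i hi j hj).1, (h i hi j hj).2.1, if_neg (Ne.symm hji)]
        ring
      · intro hni
        exact absurd (Finset.mem_range.2 hi) hni
    have hyb : ∀ i < k, vv A (b i) y' = 0 := by
      intro i hi
      rw [hv, Finset.sum_eq_single i]
      · rw [vv_skew hA (b i) (a i), (h i hi i hi).1, (h i hi i hi).2.2, if_pos rfl]
        ring
      · intro j hj hji
        rw [Finset.mem_range] at hj
        rw [vv_skew hA (b i) (a j), (h j hj i hi).1, (h i hi j hj).2.2, if_neg hji]
        ring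
      · intro hni
        exact absurd (Finset.mem_range.2 hi) hni
    have hxy : vv A x y' = vv A x y := by
      rw [hv, Finset.sum_eq_zero, sub_zero]
      intro j hj
      rw [Finset.mem_range] at hj
      rw [vv_skew hA x (b j), vv_skew hA x (a j), hxa j hj, hxb j hj]
      ring
    have hself : ∀ z, vv A z z = 0 := by
      intro z
      have h1 := vv_skew hA z z
      linarith
    let y2 : Fin (2 * n) → ℝ := (vv A x y)⁻¹ • y'
    refine ⟨Function.update a k x, Function.update b k y2, ?_⟩
    intro i hi j hj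
    have hi' : i < k ∨ i = k := by omega
    have hj' : j < k ∨ j = k := by omega
    rcases hi' with hi' | rfl <;> rcases hj' with hj' | rfl
    · rw [Function.update_of_ne hi'.ne, Function.update_of_ne hi'.ne, Function.update_of_ne hj'.ne,
        Function.update_of_ne hj'.ne]
      exact h i hi' j hj'
    · rw [Function.update_of_ne hi'.ne, Function.update_of_ne hi'.ne, Function.update_self, Function.update_self,
        if_neg hi'.ne]
      refine ⟨?_, hxa i hi', ?_⟩
      · simp only [y2]
        rw [vv_smul2, hya i hi', mul_zero]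
      · simp only [y2]
        rw [vv_smul2, hyb i hi', mul_zero]
    · rw [Function.update_self, Function.update_self, Function.update_of_ne hj'.ne, Function.update_of_ne hj'.ne,
        if_neg hj'.ne']
      refine ⟨?_, ?_, ?_⟩
      · rw [vv_skew hA, hxb j hj', neg_zero]
      · rw [vv_skew hA, hxa j hj', neg_zero]
      · simp only [y2]
        rw [vv_smul1, vv_skew hA y' (b j), hyb j hj']
        ring
    · rw [Function.update_self, Function.update_self, if_pos rfl]
      refine ⟨?_, hself _, hself _⟩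
      simp only [y2]
      rw [vv_smul2, hxy]
      exact inv_mul_cancel₀ hy

/-- The Pfaffian of a nondegenerate skew matrix is not zero. -/
theorem mp_const_ne {n : ℕ} (A : Fin (2 * n) → Fin (2 * n) → ℝ) (hA : ∀ i j, A i j = - A j i)
    (hnd : ∀ x : Fin (2 * n) → ℝ, x ≠ 0 → ∃ y, vv A x y ≠ 0) : mp (fun _ : Fin n => A) ≠ 0 := by
  obtain ⟨a, b, h⟩ := exists_symp hA hnd n le_rfl
  let E : Matrix (Fin (2 * n)) (Fin (2 * n)) ℝ := fun c r => if (r : ℕ) % 2 = 0 then a ((r : ℕ) / 2) c else b ((r : ℕ) / 2) c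
  have hE1 : ∀ i : Fin n, (fun c => E c (fst i)) = a i := by
    intro i
    funext c
    have h1 : ((fst i : Fin (2 * n)) : ℕ) % 2 = 0 := by
      simp only [fst]
      omega
    simp only [E]
    rw [if_pos h1, fst_div]
  have hE2 : ∀ i : Fin n, (fun c => E c (snd i)) = b i := by
    intro i
    funext c
    have h1 : ¬ ((snd i : Fin (2 * n)) : ℕ) % 2 = 0 := by
      simp only [snd]
      omega
    simp only [E]
    rw [if_neg h1, snd_div]
  have htr : ∀ r s, tr E A r s = vv A (fun c => E c r) (fun c => E c s) := fun r s => rfl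
  have hJ : tr E A = J0 n := by
    funext r s
    rw [htr]
    obtain ⟨i, hi⟩ := exists_fst_or_snd r
    obtain ⟨j, hj⟩ := exists_fst_or_snd s
    rcases hi with rfl | rfl <;> rcases hj with rfl | rfl
    · rw [hE1, hE1, (h i i.2 j j.2).2.1]
      unfold J0
      rw [fst_div, fst_div]
      by_cases hij : i = j
      · subst hij
        simp
      · rw [if_neg (fun e => hij (Fin.ext e))]
    · rw [hE1, hE2, (h i i.2 j j.2).1]
      by_cases hij : i = j
      · subst hij
        rw [J0_fs, if_pos rfl]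
      · unfold J0
        rw [fst_div, snd_div, if_neg (fun e => hij (Fin.ext e)), if_neg (fun e => hij (Fin.ext e))]
    · rw [hE2, hE1, vv_skew hA, (h j j.2 i i.2).1]
      by_cases hij : i = j
      · subst hij
        rw [J0_sf, if_pos rfl]
      · unfold J0
        rw [fst_div, snd_div, if_neg (fun e => hij (Fin.ext e)), if_neg (fun e => hij (Fin.ext e.symm)), neg_zero]
    · rw [hE2, hE2, (h i i.2 j j.2).2.2]
      unfold J0
      rw [snd_div, snd_div]
      by_cases hij : i = j
      · subst hij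
        simp
      · rw [if_neg (fun e => hij (Fin.ext e))]
  have h1 := mp_tr E (fun _ : Fin n => A)
  rw [hJ] at h1
  intro h0
  rw [h0, mul_zero] at h1
  exact (mp_J0 n).ne' h1

end H7HB
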