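import Pool.Agent.Lib.H7HB.M3b

/-! # H7HB, file M3c: the pointwise theorems in a frame -/

set_option autoImplicit false

namespace H7HB

open Finset Equiv Pool.Agent.H69Hopf Pool.Agent.H46X H31R H79G

theorem split_nonneg_frame {n : ℕ} {R : Arr (2 * n)} (hA : IsAlgCurv R) (hK : ∀ u v, ev R u v u v ≤ 0)
    (hS : SplitSimple R) (E : Mt (2 * n)) :
    0 ≤ (-1) ^ n * Pool.Agent.H69Hopf.gaussBonnet n (frameR R E) := by
  rw [gb_frameR, mul_left_comm]
  exact mul_nonneg (sq_nonneg _) (split_nonneg hA hK hS)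

theorem split_pos_frame {n : ℕ} {R : Arr (2 * n)} (hA : IsAlgCurv R)
    (hK : ∀ u v, LinearIndependent ℝ ![u, v] → ev R u v u v < 0) (hS : SplitSimple R)
    {G E : Mt (2 * n)} (hE : E.transpose * G * E = 1) :
    0 < (-1) ^ n * Pool.Agent.H69Hopf.gaussBonnet n (frameR R E) := by
  rw [gb_frameR, mul_left_comm]
  have h1 : E.det ≠ 0 := by
    intro h
    have h2 := congrArg Matrix.det hE
    rw [Matrix.det_mul, Matrix.det_mul, h, mul_zero, Matrix.det_one] at h2
    exact zero_ne_one h2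
  have h2 : 0 < E.det ^ 2 := by positivity
  exact mul_pos h2 (split_pos hA hK hS)

end H7HB
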